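import Mathlib

/-!
# Closed unbounded subsets of an order of type omega one

`OmegaOne Om`: `Om` is well-ordered, uncountable, and all its proper initial segments are countable.
Everything is phrased with the Mathlib predicates `IsClub` and `IsStationary`.
-/

set_option linter.unusedSectionVars false
set_option linter.unusedVariables false

namespace Pool.Agent.W905.ATG

open Set Order

/-- `Om` is uncountable and all its proper initial segments are countable. -/
class OmegaOne (Om : Type*) [LinearOrder Om] [WellFoundedLT Om] : Prop where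
  unc : ¬ (Set.univ : Set Om).Countable
  cnt : ∀ a : Om, (Set.Iio a).Countable

section

variable {Om : Type*} [LinearOrder Om] [WellFoundedLT Om] [OmegaOne Om]

theorem cnt_Iic (a : Om) : (Set.Iic a).Countable := by
  rw [← Set.Iio_insert]
  exact (OmegaOne.cnt a).insert a

theorem exists_gt_of_countable {s : Set Om} (hs : s.Countable) : ∃ b, ∀ x ∈ s, x < b := by
  by_contra hcon
  push Not at hcon
  apply OmegaOne.unc (Om := Om)
  refine Set.Countable.mono (s₂ := ⋃ x ∈ s, Set.Iic x) ?_ (hs.biUnion fun x _ => cnt_Iic x)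
  intro b _
  obtain ⟨x, hx, hbx⟩ := hcon b
  simp only [Set.mem_iUnion]
  exact ⟨x, hx, hbx⟩

theorem exists_gt' (a : Om) : ∃ b, a < b := by
  obtain ⟨b, hb⟩ := exists_gt_of_countable (Set.countable_singleton a)
  exact ⟨b, hb a rfl⟩

theorem exists_gt_seq (f : ℕ → Om) : ∃ b, ∀ n, f n < b := by
  obtain ⟨b, hb⟩ := exists_gt_of_countable (Set.countable_range f)
  exact ⟨b, fun n => hb _ ⟨n, rfl⟩⟩

theorem nonempty_om : Nonempty Om := by
  by_contra h
  rw [not_nonempty_iff] at h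
  exact OmegaOne.unc (Om := Om) (Set.to_countable _)

theorem cof_ne : Order.cof Om ≠ Cardinal.aleph0 := by
  intro h
  obtain ⟨s, hs, hs'⟩ := Order.exists_cof_eq (α := Om)
  rw [h] at hs'
  have hc : s.Countable := by
    rw [← Cardinal.le_aleph0_iff_set_countable, hs']
  obtain ⟨b, hb⟩ := exists_gt_of_countable hc
  obtain ⟨x, hx, hbx⟩ := hs b
  exact absurd (hb x hx) (not_lt.2 hbx)

theorem exists_isLUB {s : Set Om} (h : BddAbove s) : ∃ x, IsLUB s x := by
  have hwf : WellFounded ((· < ·) : Om → Om → Prop) := wellFounded_lt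
  refine ⟨hwf.min (upperBounds s) h, hwf.min_mem _ h, fun y hy => ?_⟩
  exact not_lt.1 (hwf.not_lt_min (upperBounds s) hy)

theorem isClub_Ioi (a : Om) : IsClub (Set.Ioi a) := by
  refine ⟨?_, ?_⟩
  · intro t ht hne _ x hx
    obtain ⟨y, hy⟩ := hne
    exact lt_of_lt_of_le (ht hy) (hx.1 hy)
  · intro b
    obtain ⟨c, hc⟩ := exists_gt' (max a b)
    exact ⟨c, lt_of_le_of_lt (le_max_left _ _) hc, (lt_of_le_of_lt (le_max_right _ _) hc).le⟩

theorem isClub_inter {s t : Set Om} (hs : IsClub s) (ht : IsClub t) : IsClub (s ∩ t) :=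
  IsClub.inter cof_ne hs ht

/-- Diagonal intersections of clubs are clubs. -/
theorem isClub_diag {D : Om → Set Om} (hD : ∀ a, IsClub (D a)) :
    IsClub {c | ∀ a < c, c ∈ D a} := by
  refine ⟨?_, ?_⟩
  · intro t ht hne hdir x hx a hax
    -- elements of t above a
    obtain ⟨y, hy, hay⟩ := (lt_isLUB_iff hx).1 hax
    have hsub : {y ∈ t | a < y} ⊆ D a := fun z hz => ht hz.1 a hz.2
    refine (hD a).isLUB_mem hsub ⟨y, hy, hay⟩ ⟨fun z hz => hx.1 hz.1, fun u hu => ?_⟩
    apply hx.2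
    intro z hz
    rcases le_or_gt z a with h | h
    · exact h.trans (hay.le.trans (hu ⟨hy, hay⟩))
    · exact hu ⟨hz, h⟩
  · intro a
    have hcl : ∀ b : Om, IsClub (⋂ x : Set.Iic b, D x) := by
      intro b
      have : Countable (Set.Iic b) := (cnt_Iic b).to_subtype
      exact IsClub.iInter_of_countable cof_ne fun x => hD x
    have hstep : ∀ b : Om, ∃ c, b < c ∧ ∀ x ≤ b, c ∈ D x := by
      intro b
      obtain ⟨b', hb'⟩ := exists_gt' b
      obtain ⟨c, hc, hbc⟩ := (hcl b).isCofinal b'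
      refine ⟨c, hb'.trans_le hbc, fun x hx => ?_⟩
      exact Set.mem_iInter.1 hc ⟨x, hx⟩
    choose g hg hg' using hstep
    let s : ℕ → Om := fun n => g^[n] a
    have hs : ∀ n, s (n + 1) = g (s n) := fun n => Function.iterate_succ_apply' g n a
    have hmono : StrictMono s := strictMono_nat_of_lt_succ fun n => by
      rw [hs]; exact hg _
    obtain ⟨b, hb⟩ := exists_gt_seq s
    obtain ⟨x, hx⟩ := exists_isLUB (s := Set.range s) ⟨b, by rintro _ ⟨n, rfl⟩; exact (hb n).le⟩
    refine ⟨x, ?_, hx.1 ⟨0, rfl⟩⟩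
    intro c hcx
    obtain ⟨_, ⟨n, rfl⟩, hcn⟩ := (lt_isLUB_iff hx).1 hcx
    refine (hD c).isLUB_mem (t := Set.range fun m => s (n + m + 1)) ?_ (Set.range_nonempty _) ?_
    · rintro _ ⟨m, rfl⟩
      change s (n + m + 1) ∈ D c
      rw [hs (n + m)]
      exact hg' _ _ (hcn.le.trans (hmono.monotone (Nat.le_add_right n m)))
    · refine ⟨?_, fun u hu => hx.2 ?_⟩
      · rintro _ ⟨m, rfl⟩
        exact hx.1 ⟨_, rfl⟩
      · rintro _ ⟨m, rfl⟩
        refine (hmono.monotone ?_).trans (hu ⟨m, rfl⟩)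
        omega

/-- Diagonal intersections along a countable-to-one map. -/
theorem isClub_diag' {P : Type*} (rho : P → Om) (hr : ∀ a, {p | rho p = a}.Countable)
    {D : P → Set Om} (hD : ∀ p, IsClub (D p)) : IsClub {c | ∀ p, rho p < c → c ∈ D p} := by
  have h1 : ∀ a, IsClub (⋂ p : {p | rho p = a}, D p) := by
    intro a
    have : Countable {p | rho p = a} := (hr a).to_subtype
    exact IsClub.iInter_of_countable cof_ne fun x => hD x
  have h2 := isClub_diag h1
  have : {c | ∀ p, rho p < c → c ∈ D p} = {c | ∀ a < c, c ∈ ⋂ p : {p | rho p = a}, D p} := by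
    ext c
    simp only [Set.mem_ofPred_eq, Set.mem_iInter]
    constructor
    · rintro h a ha ⟨p, rfl⟩
      exact h p ha
    · intro h p hp
      exact h _ hp ⟨p, rfl⟩
  rw [this]
  exact h2

/-- Closure points of a function form a club. -/
theorem isClub_closed (g : Om → Om) : IsClub {c | ∀ a < c, g a < c} :=
  isClub_diag (D := fun a => Set.Ioi (g a)) fun a => isClub_Ioi _

theorem isClub_closed' {P : Type*} (rho : P → Om) (hr : ∀ a, {p | rho p = a}.Countable)
    (g : P → Om) : IsClub {c | ∀ p, rho p < c → g p < c} :=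
  isClub_diag' rho hr (D := fun p => Set.Ioi (g p)) fun a => isClub_Ioi _

theorem stat_inter {s t : Set Om} (hs : IsStationary s) (ht : IsClub t) : IsStationary (s ∩ t) := by
  intro u hu
  obtain ⟨x, hx, hx'⟩ := hs (isClub_inter ht hu)
  exact ⟨x, ⟨hx, hx'.1⟩, hx'.2⟩

theorem isStationary_of_isClub {t : Set Om} (ht : IsClub t) : IsStationary t := by
  have := nonempty_om (Om := Om)
  exact IsClub.isStationary cof_ne ht

/-- A limit: not minimal, and no predecessor. -/
theorem isSuccLimit_of {c a0 : Om} (h0 : a0 < c) {g : Om → Om} (hg : ∀ a, a < g a)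
    (hc : ∀ a < c, g a < c) : Order.IsSuccLimit c := by
  refine ⟨fun h => absurd h0 (not_lt.2 (h h0.le)), fun a ha => ?_⟩
  exact ha.2 (hg a) (hc a ha.1)

/-! ### The next element of an unbounded set -/

open Classical in
/-- The least element of `C` above `a`. -/
noncomputable def nx (C : Set Om) (a : Om) : Om :=
  if h : ∃ b, b ∈ C ∧ a < b then
    (wellFounded_lt (α := Om)).min {b | b ∈ C ∧ a < b} h
  else a

theorem nx_spec {C : Set Om} (hC : IsClub C) (a : Om) :
    nx C a ∈ C ∧ a < nx C a ∧ ∀ b ∈ C, a < b → nx C a ≤ b := by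
  have h : ∃ b, b ∈ C ∧ a < b := by
    obtain ⟨a', ha'⟩ := exists_gt' a
    obtain ⟨b, hb, hab⟩ := hC.isCofinal a'
    exact ⟨b, hb, ha'.trans_le hab⟩
  unfold nx
  rw [dif_pos h]
  have h1 := (wellFounded_lt (α := Om)).min_mem {b | b ∈ C ∧ a < b} h
  refine ⟨h1.1, h1.2, fun b hb hab => ?_⟩
  exact not_lt.1 ((wellFounded_lt (α := Om)).not_lt_min {b | b ∈ C ∧ a < b} ⟨hb, hab⟩)

theorem nx_mem {C : Set Om} (hC : IsClub C) (a : Om) : nx C a ∈ C := (nx_spec hC a).1
theorem lt_nx {C : Set Om} (hC : IsClub C) (a : Om) : a < nx C a := (nx_spec hC a).2.1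
theorem nx_le {C : Set Om} (hC : IsClub C) {a b : Om} (hb : b ∈ C) (hab : a < b) : nx C a ≤ b :=
  (nx_spec hC a).2.2 b hb hab

/-- Elements of `C` below the next element after `a` are at most `a`. -/
theorem le_of_lt_nx {C : Set Om} (hC : IsClub C) {a b : Om} (hb : b ∈ C) (h : b < nx C a) :
    b ≤ a := by
  by_contra hcon
  exact absurd (nx_le hC hb (not_le.1 hcon)) (not_le.2 h)

/-- Floor in a club. -/
theorem exists_floor {C : Set Om} (hC : IsClub C) {a b : Om} (hb : b ∈ C) (hab : b ≤ a) :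
    ∃ d ∈ C, b ≤ d ∧ d ≤ a ∧ a < nx C d := by
  obtain ⟨d, hd⟩ := exists_isLUB (s := {x | x ∈ C ∧ x ≤ a}) ⟨a, fun x hx => hx.2⟩
  have hdC : d ∈ C := hC.isLUB_mem (t := {x | x ∈ C ∧ x ≤ a}) (fun x hx => hx.1) ⟨b, hb, hab⟩ hd
  have hda : d ≤ a := hd.2 fun x hx => hx.2
  refine ⟨d, hdC, hd.1 ⟨hb, hab⟩, hda, ?_⟩
  by_contra hcon
  have : nx C d ≤ d := hd.1 ⟨nx_mem hC d, not_lt.1 hcon⟩
  exact absurd (lt_nx hC d) (not_lt.2 this)

/-- Limit points of a club. -/
def lim (C : Set Om) : Set Om := {c | (∃ a, a < c) ∧ ∀ a < c, nx C a < c}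

theorem isClub_lim (C : Set Om) : IsClub (lim C) := by
  obtain ⟨a0⟩ := nonempty_om (Om := Om)
  obtain ⟨m, hm⟩ : ∃ m : Om, ∀ a, m ≤ a :=
    ⟨(wellFounded_lt (α := Om)).min Set.univ ⟨a0, trivial⟩,
      fun a => not_lt.1 ((wellFounded_lt (α := Om)).not_lt_min Set.univ trivial)⟩
  have h := isClub_inter (isClub_Ioi m) (isClub_closed (nx C))
  have he : lim C = Set.Ioi m ∩ {c | ∀ a < c, nx C a < c} := by
    ext c
    constructor
    · rintro ⟨⟨a, ha⟩, h⟩
      exact ⟨lt_of_le_of_lt (hm a) ha, h⟩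
    · rintro ⟨h1, h2⟩
      exact ⟨⟨m, h1⟩, h2⟩
  rw [he]
  exact h

theorem lim_subset {C : Set Om} (hC : IsClub C) : lim C ⊆ C := by
  rintro c ⟨⟨a, ha⟩, h⟩
  refine hC.isLUB_mem (t := {x | x ∈ C ∧ x < c}) (fun x hx => hx.1) ⟨nx C a, nx_mem hC a, h a ha⟩ ?_
  refine ⟨fun x hx => hx.2.le, fun u hu => ?_⟩
  by_contra hcon
  have h1 : u < c := not_le.1 hcon
  exact absurd (hu ⟨nx_mem hC u, h u h1⟩) (not_le.2 (lt_nx hC u))

end

end Pool.Agent.W905.ATG
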