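import Mathlib
import Pool.Agent.W905.ATG.Club

/-!
# The embedding lemma (pure combinatorics)

A system of pieces `p` with heights `rho p` and a partial parent map, together with, for
stationarily many `xi`, an infinite chain `b xi` of pieces, closed under parents, of order type
omega and cofinal in `xi`.  Then the full tree of finite sequences embeds (as disjoint parent
connected sets `M s`), in such a way that the chains become infinite sequences cofinal in `xi`.
-/

set_option linter.unusedSectionVars false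
set_option linter.unusedVariables false

namespace Pool.Agent.W905.ATG

open Set Order

/-- Pieces with heights and parents. -/
structure Sys (Om P : Type*) [LinearOrder Om] where
  rho : P → Om
  par : P → Option P
  par_lt : ∀ {p q : P}, par p = some q → rho q < rho p
  cnt : ∀ a, {p | rho p = a}.Countable

section

variable {Om P : Type*} [LinearOrder Om] [WellFoundedLT Om] [OmegaOne Om]

/-- `q` is an ancestor of `p` (or equal to it). -/
def Sys.Anc (S : Sys Om P) (q p : P) : Prop :=
  Relation.ReflTransGen (fun x y => S.par x = some y) p q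

variable (S : Sys Om P)

theorem Sys.Anc.refl (p : P) : S.Anc p p := Relation.ReflTransGen.refl

variable {S}

theorem Sys.Anc.trans {a b c : P} (h1 : S.Anc a b) (h2 : S.Anc b c) : S.Anc a c :=
  Relation.ReflTransGen.trans h2 h1

theorem Sys.Anc.of_par {p q : P} (h : S.par p = some q) : S.Anc q p :=
  Relation.ReflTransGen.single h

theorem Sys.Anc.eq_or {q p : P} (h : S.Anc q p) :
    q = p ∨ ∃ q', S.par p = some q' ∧ S.Anc q q' := by
  rcases Relation.ReflTransGen.cases_head h with h | ⟨c, hc, hc'⟩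
  · exact Or.inl h.symm
  · exact Or.inr ⟨c, hc, hc'⟩

theorem Sys.Anc.total {a b c : P} (h1 : S.Anc a c) (h2 : S.Anc b c) : S.Anc a b ∨ S.Anc b a := by
  have hu : Relator.RightUnique (fun x y => S.par x = some y) := by
    intro x y z hy hz
    rw [hy] at hz
    exact Option.some.inj hz
  exact (Relation.ReflTransGen.total_of_right_unique hu h1 h2).symm

theorem Sys.Anc.le {q p : P} (h : S.Anc q p) : S.rho q ≤ S.rho p := by
  induction h using Relation.ReflTransGen.head_induction_on with
  | refl => exact le_rfl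
  | head h' _ ih => exact ih.trans (S.par_lt h').le

theorem Sys.Anc.lt {q p : P} (h : S.Anc q p) (hne : q ≠ p) : S.rho q < S.rho p := by
  rcases h.eq_or with h' | ⟨q', hq', h'⟩
  · exact absurd h' hne
  · exact lt_of_le_of_lt h'.le (S.par_lt hq')

theorem Sys.Anc.finite (S : Sys Om P) (p : P) : {q | S.Anc q p}.Finite := by
  have key : ∀ a : Om, ∀ p, S.rho p = a → {q | S.Anc q p}.Finite := by
    intro a
    induction a using WellFoundedLT.induction with
    | ind a ih =>
      intro p hp
      rcases hpar : S.par p with _ | q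
      · refine (Set.finite_singleton p).subset ?_
        intro x hx
        rcases Sys.Anc.eq_or hx with h | ⟨q', hq', _⟩
        · exact h
        · rw [hpar] at hq'
          cases hq'
      · have h1 := ih (S.rho q) (hp ▸ S.par_lt hpar) q rfl
        refine (h1.insert p).subset ?_
        intro x hx
        rcases Sys.Anc.eq_or hx with h | ⟨q', hq', h'⟩
        · exact Or.inl h
        · rw [hpar] at hq'
          cases hq'
          exact Or.inr h'
  exact key _ p rfl

/-- The chains. -/
structure Chains (S : Sys Om P) (S0 : Set Om) (b : Om → Set P) : Prop where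
  lt : ∀ x ∈ S0, ∀ p ∈ b x, S.rho p < x
  up : ∀ x ∈ S0, ∀ p ∈ b x, ∀ q, S.par p = some q → q ∈ b x
  comp : ∀ x ∈ S0, ∀ p ∈ b x, ∀ q ∈ b x, S.Anc p q ∨ S.Anc q p
  fin : ∀ x ∈ S0, ∀ a < x, {p | p ∈ b x ∧ S.rho p < a}.Finite
  inf : ∀ x ∈ S0, (b x).Infinite

variable {S0 : Set Om} {b : Om → Set P}

/-- Pieces which lie on stationarily many chains. -/
def Big (S0 : Set Om) (b : Om → Set P) (p : P) : Prop := IsStationary {x | x ∈ S0 ∧ p ∈ b x}

theorem Chains.anc_mem (hb : Chains S S0 b) {x : Om} (hx : x ∈ S0) {p q : P} (hp : p ∈ b x)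
    (h : S.Anc q p) : q ∈ b x := by
  induction h with
  | refl => exact hp
  | tail _ h' ih => exact hb.up x hx _ ih _ h'

theorem Chains.exists_ge (hb : Chains S S0 b) {x : Om} (hx : x ∈ S0) {a : Om} (ha : a < x) :
    ∃ q ∈ b x, a ≤ S.rho q := by
  by_contra hcon
  push Not at hcon
  apply hb.inf x hx
  exact (hb.fin x hx a ha).subset fun p hp => ⟨hp, hcon p hp⟩

theorem Chains.exists_min (hb : Chains S S0 b) {x : Om} (hx : x ∈ S0) {a : Om} (ha : a < x) :
    ∃ q ∈ b x, a ≤ S.rho q ∧ ∀ q', S.par q = some q' → S.rho q' < a := by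
  obtain ⟨q0, hq0, hq0'⟩ := hb.exists_ge hx ha
  have hwf : WellFounded (InvImage (· < ·) S.rho) := InvImage.wf _ wellFounded_lt
  let s : Set P := {q | q ∈ b x ∧ a ≤ S.rho q}
  have hne : s.Nonempty := ⟨q0, hq0, hq0'⟩
  refine ⟨hwf.min s hne, (hwf.min_mem s hne).1, (hwf.min_mem s hne).2, fun q' hq' => ?_⟩
  by_contra hcon
  exact hwf.not_lt_min s (x := q')
    ⟨hb.up x hx _ (hwf.min_mem s hne).1 _ hq', not_lt.1 hcon⟩ (S.par_lt hq')

theorem exists_good (S : Sys Om P) (S0 : Set Om) (b : Om → Set P) :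
    ∃ D : Set Om, IsClub D ∧ ∀ x ∈ D, x ∈ S0 → ∀ p ∈ b x, S.rho p < x → Big S0 b p := by
  classical
  have h : ∀ p, ∃ D : Set Om, IsClub D ∧ (¬ Big S0 b p → ∀ x ∈ D, ¬ (x ∈ S0 ∧ p ∈ b x)) := by
    intro p
    by_cases hp : Big S0 b p
    · exact ⟨Set.univ, IsClub.univ, fun h => absurd hp h⟩
    · obtain ⟨t, ht, hd⟩ := not_isStationary_iff.1 hp
      exact ⟨t, ht, fun _ x hx hx' => Set.disjoint_left.1 hd hx' hx⟩
  choose D hD hD' using h
  refine ⟨_, isClub_diag' S.rho S.cnt hD, ?_⟩
  intro x hx hx0 p hp hlt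
  by_contra hcon
  exact hD' p hcon x (hx p hlt) ⟨hx0, hp⟩

/-- The big pieces which are first at height at least `t` above `p`. -/
def Fr (S : Sys Om P) (S0 : Set Om) (b : Om → Set P) (t : Om) (p : P) : Set P :=
  {q | Big S0 b q ∧ S.Anc p q ∧ t ≤ S.rho q ∧ ∃ q', S.par q = some q' ∧ S.rho q' < t}

theorem Fr.anti {t : Om} {p q1 q2 x : P} (h1 : q1 ∈ Fr S S0 b t p) (h2 : q2 ∈ Fr S S0 b t p)
    (a1 : S.Anc q1 x) (a2 : S.Anc q2 x) : q1 = q2 := by
  have key : ∀ {q1 q2 : P}, q1 ∈ Fr S S0 b t p → q2 ∈ Fr S S0 b t p → S.Anc q1 q2 → q1 = q2 := by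
    intro q1 q2 h1 h2 h
    rcases h.eq_or with h' | ⟨q', hq', h'⟩
    · exact h'
    · obtain ⟨q'', hq'', hlt⟩ := h2.2.2.2
      rw [hq'] at hq''
      cases hq''
      exact absurd (lt_of_le_of_lt h'.le hlt) (not_lt.2 h1.2.2.1)
  rcases a1.total a2 with h | h
  · exact key h1 h2 h
  · exact (key h2 h1 h).symm

theorem exists_theta (hb : Chains S S0 b) {p : P} (hp : Big S0 b p) :
    ∃ t, S.rho p < t ∧ ¬ (Fr S S0 b t p).Countable := by
  by_contra hcon
  push Not at hcon
  have hg : ∀ t : Om, ∃ u, t < u ∧ (S.rho p < t → ∀ q ∈ Fr S S0 b t p, S.rho q < u) := by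
    intro t
    by_cases ht : S.rho p < t
    · obtain ⟨u, hu⟩ := exists_gt_of_countable ((hcon t ht).image S.rho)
      obtain ⟨u', hu'⟩ := exists_gt' (max t u)
      refine ⟨u', lt_of_le_of_lt (le_max_left _ _) hu', fun _ q hq => ?_⟩
      exact (hu _ ⟨q, hq, rfl⟩).trans (lt_of_le_of_lt (le_max_right _ _) hu')
    · obtain ⟨u, hu⟩ := exists_gt' t
      exact ⟨u, hu, fun h => absurd h ht⟩
  choose g hg1 hg2 using hg
  obtain ⟨D, hD, hD'⟩ := exists_good S S0 b
  -- a closure point above the height of p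
  obtain ⟨a1, ha1⟩ := exists_gt' (S.rho p)
  obtain ⟨t, ht, hat⟩ := (isClub_closed g).isCofinal a1
  have hpt : S.rho p < t := ha1.trans_le hat
  obtain ⟨x, ⟨hx0, hpx⟩, hxD, hxt⟩ := hp (isClub_inter hD (isClub_Ioi t))
  obtain ⟨q, hq, htq, hmin⟩ := hb.exists_min hx0 hxt
  have hqbig : Big S0 b q := hD' x hxD hx0 q hq (hb.lt x hx0 q hq)
  have hne : p ≠ q := by
    rintro rfl
    exact absurd hpt (not_lt.2 htq)
  have hanc : S.Anc p q := by
    rcases hb.comp x hx0 p hpx q hq with h | h
    · exact h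
    · exact absurd (lt_of_le_of_lt h.le hpt) (not_lt.2 htq)
  rcases hanc.eq_or with h | ⟨q', hq', hanc'⟩
  · exact hne h
  have hq't : S.rho q' < t := hmin q' hq'
  have h1 : g (S.rho q') < t := ht _ hq't
  have h2 : S.rho p < g (S.rho q') := lt_of_le_of_lt hanc'.le (hg1 _)
  have h3 : q ∈ Fr S S0 b (g (S.rho q')) p :=
    ⟨hqbig, hanc, h1.le.trans htq, q', hq', hg1 _⟩
  have h4 := hg2 (g (S.rho q')) h2 q h3
  exact absurd (h4.trans (ht _ h1)) (not_lt.2 htq)

/-- Reversed initial segments of an infinite sequence. -/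
def pre (f : ℕ → Om) : ℕ → List Om
  | 0 => []
  | n + 1 => f n :: pre f n

theorem embed (S : Sys Om P) {S0 : Set Om} (hS0 : IsStationary S0) {b : Om → Set P}
    (hb : Chains S S0 b) (hcard : ∀ F : Set P, ¬ F.Countable → Nonempty (Om ≃ F)) :
    ∃ (M : List Om → Set P) (S1 : Set Om) (f : Om → ℕ → Om),
      (∀ s, ∃ r ∈ M s, ∀ p ∈ M s, p ≠ r → ∃ q ∈ M s, S.par p = some q) ∧
      (∀ s t, s ≠ t → Disjoint (M s) (M t)) ∧
      (∀ s a, ∃ p ∈ M (a :: s), ∃ q ∈ M s, S.par p = some q) ∧
      S1 ⊆ S0 ∧ IsStationary S1 ∧ (∀ x ∈ S1, Order.IsSuccLimit x) ∧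
      (∀ x ∈ S1, (∀ n, f x n < x) ∧ ∀ a < x, ∃ n, a ≤ f x n) ∧
      (∀ x ∈ S1, ∀ I ⊆ b x, I.Infinite → ∀ N, ∃ n ≥ N, (M (pre (f x) n) ∩ I).Nonempty) := by
  classical
  obtain ⟨D, hD, hD'⟩ := exists_good S S0 b
  -- a big piece
  obtain ⟨p0, hp0⟩ : ∃ p, Big S0 b p := by
    obtain ⟨x, hx, hxD⟩ := hS0 hD
    obtain ⟨p, hp⟩ := (hb.inf x hx).nonempty
    exact ⟨p, hD' x hxD hx p hp (hb.lt x hx p hp)⟩
  choose th hth using fun p : {p // Big S0 b p} => exists_theta hb p.2
  have he : ∀ p : {p // Big S0 b p}, Nonempty (Om ≃ Fr S S0 b (th p) p) := fun p =>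
    hcard _ (hth p).2
  let e : ∀ p : {p // Big S0 b p}, Om ≃ Fr S S0 b (th p) p.1 := fun p => Classical.choice (he p)
  let nxt : {p // Big S0 b p} → Om → {p // Big S0 b p} := fun p a => ⟨(e p a).1, (e p a).2.1⟩
  let r : List Om → {p // Big S0 b p} := fun s => s.rec ⟨p0, hp0⟩ fun a _ ih => nxt ih a
  have r_cons : ∀ a s, r (a :: s) = nxt (r s) a := fun a s => rfl
  have r_mem : ∀ a s, (r (a :: s)).1 ∈ Fr S S0 b (th (r s)) (r s).1 := fun a s => (e (r s) a).2
  have r_anc : ∀ a s, S.Anc (r s).1 (r (a :: s)).1 := fun a s => (r_mem a s).2.1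
  have r_suf : ∀ s t : List Om, s <:+ t → S.Anc (r s).1 (r t).1 := by
    intro s t
    induction t with
    | nil =>
      intro h
      rw [List.suffix_nil] at h
      subst h
      exact Sys.Anc.refl S _
    | cons a t ih =>
      intro h
      rcases List.suffix_cons_iff.1 h with h | h
      · subst h
        exact Sys.Anc.refl S _
      · exact (ih h).trans (r_anc a t)
  have r_inj : ∀ s a a', (r (a :: s)).1 = (r (a' :: s)).1 → a = a' := by
    intro s a a' h
    exact (e (r s)).injective (Subtype.ext h)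
  have r_cmp : ∀ s t x, S.Anc (r s).1 x → S.Anc (r t).1 x → s <:+ t ∨ t <:+ s := by
    intro s
    induction s with
    | nil => intro t x _ _; exact Or.inl (List.nil_suffix)
    | cons a s ih =>
      intro t x h1 h2
      rcases ih t x ((r_anc a s).trans h1) h2 with h | h
      · -- s is a suffix of t
        obtain ⟨l, rfl⟩ := h
        rcases List.eq_nil_or_concat l with rfl | ⟨l', c, rfl⟩
        · exact Or.inr (List.suffix_cons _ _)
        · left
          have hsuf : (c :: s) <:+ (l' ++ [c] ++ s) := ⟨l', by simp⟩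
          have h3 : S.Anc (r (c :: s)).1 x := (r_suf _ _ hsuf).trans (by simpa using h2)
          have h4 : (r (a :: s)).1 = (r (c :: s)).1 := Fr.anti (r_mem a s) (r_mem c s) h1 h3
          have h5 := r_inj s a c h4
          subst h5
          rw [List.concat_eq_append]
          exact hsuf
      · exact Or.inr (h.trans (List.suffix_cons _ _))
  let M : List Om → Set P := fun s =>
    {p | S.Anc (r s).1 p ∧ ∀ q ∈ Fr S S0 b (th (r s)) (r s).1, ¬ S.Anc q p}
  have hrM : ∀ s, (r s).1 ∈ M s := by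
    intro s
    refine ⟨Sys.Anc.refl S _, fun q hq h => ?_⟩
    exact absurd (lt_of_le_of_lt h.le (hth (r s)).1) (not_lt.2 hq.2.2.1)
  -- the sequences
  let hcode : {p // Big S0 b p} → P → Om := fun p q =>
    if h : q ∈ Fr S S0 b (th p) p.1 then (e p).symm ⟨q, h⟩ else th p
  have hcode_spec : ∀ p q (h : q ∈ Fr S S0 b (th p) p.1), (nxt p (hcode p q)).1 = q := by
    intro p q h
    simp only [hcode, dif_pos h, nxt]
    rw [Equiv.apply_symm_apply]
  -- clubs
  let cB : {p // Big S0 b p} → Om := fun p => S.rho p.1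
  have cB_cnt : ∀ a, {p : {p // Big S0 b p} | cB p = a}.Countable := by
    intro a
    exact (S.cnt a).preimage Subtype.val_injective
  have club1 : IsClub {c | ∀ p, cB p < c → th p < c} := isClub_closed' cB cB_cnt th
  have club2 : IsClub {c | ∀ p, cB p < c → ∀ q, S.rho q < c → hcode p q < c} := by
    exact isClub_diag' cB cB_cnt (D := fun p => {c | ∀ q, S.rho q < c → hcode p q < c})
      fun p => isClub_closed' S.rho S.cnt (hcode p)
  have hh : ∀ a : Om, ∃ u, ∀ s : List Om, (∀ c ∈ s, c < a) → S.rho (r s).1 < u := by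
    intro a
    have hc : {s : List Om | ∀ c ∈ s, c < a}.Countable := by
      have := (OmegaOne.cnt a).to_subtype
      have h2 : (Set.range (List.map (Subtype.val : Set.Iio a → Om))).Countable :=
        Set.countable_range _
      refine h2.mono ?_
      intro s hs
      rw [Set.mem_range]
      exact ⟨s.attachWith (· ∈ Set.Iio a) hs, List.attachWith_map_subtype_val _⟩
    obtain ⟨u, hu⟩ := exists_gt_of_countable (hc.image fun s => S.rho (r s).1)
    exact ⟨u, fun s hs => hu _ ⟨s, hs, rfl⟩⟩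
  choose hb3 hb3' using hh
  have club3 : IsClub {c | ∀ a < c, hb3 a < c} := isClub_closed hb3
  choose g0 hg0 using fun a : Om => exists_gt' a
  have club4 : IsClub {c | ∀ a < c, g0 a < c} := isClub_closed g0
  let S1 : Set Om := {x | x ∈ S0 ∧ p0 ∈ b x} ∩ (D ∩ ({c | ∀ p, cB p < c → th p < c} ∩
    ({c | ∀ p, cB p < c → ∀ q, S.rho q < c → hcode p q < c} ∩ ({c | ∀ a < c, hb3 a < c} ∩
    {c | ∀ a < c, g0 a < c}))))
  have hS1 : IsStationary S1 := stat_inter hp0 (isClub_inter hD (isClub_inter club1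
    (isClub_inter club2 (isClub_inter club3 club4))))
  -- one step of the sequence
  have hstep : ∀ x ∈ S1, ∀ s, (r s).1 ∈ b x → ∃ a < x, (r (a :: s)).1 ∈ b x := by
    rintro x ⟨⟨hx0, hpx⟩, hxD, hx1, hx2, hx3, hx4⟩ s hs
    have hlt : S.rho (r s).1 < x := hb.lt x hx0 _ hs
    have hth' : th (r s) < x := hx1 _ hlt
    obtain ⟨q, hq, htq, hmin⟩ := hb.exists_min hx0 hth'
    have hqx : S.rho q < x := hb.lt x hx0 q hq
    have hanc : S.Anc (r s).1 q := by
      rcases hb.comp x hx0 _ hs q hq with h | h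
      · exact h
      · exact absurd (lt_of_le_of_lt h.le (hth (r s)).1) (not_lt.2 htq)
    have hqF : q ∈ Fr S S0 b (th (r s)) (r s).1 := by
      refine ⟨hD' x hxD hx0 q hq hqx, hanc, htq, ?_⟩
      rcases hanc.eq_or with h | ⟨q', hq', _⟩
      · rw [← h] at htq
        exact absurd (hth (r s)).1 (not_lt.2 htq)
      · exact ⟨q', hq', hmin q' hq'⟩
    refine ⟨hcode (r s) q, hx2 _ hlt q hqx, ?_⟩
    rw [r_cons, hcode_spec _ _ hqF]
    exact hq
  have hseq : ∀ x, ∃ f : ℕ → Om, x ∈ S1 → ∀ n, f n < x ∧ (r (pre f n)).1 ∈ b x := by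
    intro x
    by_cases hx : x ∈ S1
    · let step : {s : List Om // (r s).1 ∈ b x} → {s : List Om // (r s).1 ∈ b x} := fun s =>
        ⟨Classical.choose (hstep x hx s.1 s.2) :: s.1,
          (Classical.choose_spec (hstep x hx s.1 s.2)).2⟩
      let seq : ℕ → {s : List Om // (r s).1 ∈ b x} := fun n => step^[n] ⟨[], hx.1.2⟩
      have hseq1 : ∀ n, seq (n + 1) = step (seq n) := fun n =>
        Function.iterate_succ_apply' step n _
      let f : ℕ → Om := fun n => Classical.choose (hstep x hx (seq n).1 (seq n).2)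
      have hf : ∀ n, f n < x := fun n =>
        (Classical.choose_spec (hstep x hx (seq n).1 (seq n).2)).1
      have hpre : ∀ n, pre f n = (seq n).1 := by
        intro n
        induction n with
        | zero => rfl
        | succ n ih =>
          rw [hseq1 n]
          change f n :: pre f n = _
          rw [ih]
      refine ⟨f, fun _ n => ⟨hf n, ?_⟩⟩
      rw [hpre]
      exact (seq n).2
    · exact ⟨fun _ => x, fun h => absurd h hx⟩
  choose f hf using hseq
  have pre_anc : ∀ (g : ℕ → Om) (m n : ℕ), m ≤ n → S.Anc (r (pre g m)).1 (r (pre g n)).1 := by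
    intro g m n hmn
    induction n, hmn using Nat.le_induction with
    | base => exact Sys.Anc.refl S _
    | succ n _ ih => exact ih.trans (r_anc _ _)
  have pre_ne : ∀ (g : ℕ → Om) (n : ℕ), (r (pre g n)).1 ≠ (r (pre g (n + 1))).1 := by
    intro g n h
    have h1 := (r_mem (g n) (pre g n)).2.2.1
    have h2 := (hth (r (pre g n))).1
    change (r (pre g n)).1 = (r (g n :: pre g n)).1 at h
    rw [← h] at h1
    exact absurd h2 (not_lt.2 h1)
  have pre_mono : ∀ (g : ℕ → Om), StrictMono fun n => S.rho (r (pre g n)).1 := by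
    intro g
    refine strictMono_nat_of_lt_succ fun n => ?_
    exact (pre_anc g n (n + 1) (Nat.le_succ n)).lt (pre_ne g n)
  refine ⟨M, S1, f, ?_, ?_, ?_, fun x hx => hx.1.1, hS1, ?_, ?_, ?_⟩
  · -- parent connected
    intro s
    refine ⟨(r s).1, hrM s, fun p hp hne => ?_⟩
    rcases hp.1.eq_or with h | ⟨q', hq', h⟩
    · exact absurd h.symm hne
    · exact ⟨q', ⟨h, fun q hq hqq' => hp.2 q hq (hqq'.trans (Sys.Anc.of_par hq'))⟩, hq'⟩
  · -- disjoint
    have key : ∀ s t : List Om, s ≠ t → s <:+ t → Disjoint (M s) (M t) := by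
      intro s t hne hst
      rw [Set.disjoint_left]
      intro p hps hpt
      obtain ⟨l, rfl⟩ := hst
      rcases List.eq_nil_or_concat l with rfl | ⟨l', c, rfl⟩
      · exact hne rfl
      · have hsuf : (c :: s) <:+ (l' ++ [c] ++ s) := ⟨l', by simp⟩
        refine hps.2 _ (r_mem c s) ((r_suf _ _ hsuf).trans ?_)
        simpa using hpt.1
    intro s t hne
    rw [Set.disjoint_left]
    intro p hps hpt
    rcases r_cmp s t p hps.1 hpt.1 with h | h
    · exact Set.disjoint_left.1 (key s t hne h) hps hpt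
    · exact Set.disjoint_left.1 (key t s hne.symm h) hpt hps
  · -- adjacency
    intro s a
    obtain ⟨q', hq', hlt⟩ := (r_mem a s).2.2.2
    refine ⟨_, hrM (a :: s), q', ⟨?_, fun q hq hqq' => ?_⟩, hq'⟩
    · rcases (r_anc a s).eq_or with h | ⟨q'', hq'', h⟩
      · have h1 := (r_mem a s).2.2.1
        rw [← h] at h1
        exact absurd (hth (r s)).1 (not_lt.2 h1)
      · rw [hq'] at hq''
        cases hq''
        exact h
    · exact absurd (lt_of_le_of_lt hqq'.le hlt) (not_lt.2 hq.2.2.1)
  · -- limits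
    rintro x ⟨⟨hx0, hpx⟩, hxD, hx1, hx2, hx3, hx4⟩
    exact isSuccLimit_of (hb.lt x hx0 p0 hpx) hg0 hx4
  · -- cofinal
    intro x hx
    refine ⟨fun n => (hf x hx n).1, fun a ha => ?_⟩
    by_contra hcon
    push Not at hcon
    have hsmall : ∀ n, ∀ c ∈ pre (f x) n, c < a := by
      intro n
      induction n with
      | zero => intro c hc; cases hc
      | succ n ih =>
        intro c hc
        rcases List.mem_cons.1 hc with h | h
        · rw [h]; exact hcon n
        · exact ih c h
    have h1 : hb3 a < x := hx.2.2.2.2.1 a ha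
    have h2 := hb.fin x hx.1.1 _ h1
    have h3 : Set.range (fun n => (r (pre (f x) n)).1) ⊆ {p | p ∈ b x ∧ S.rho p < hb3 a} := by
      rintro _ ⟨n, rfl⟩
      exact ⟨(hf x hx n).2, hb3' a _ (hsmall n)⟩
    refine Set.infinite_range_of_injective ?_ (h2.subset h3)
    intro m n hmn
    exact (pre_mono (f x)).injective (congrArg S.rho hmn)
  · -- adjacency to the tops
    intro x hx I hI hinf N
    obtain ⟨p, hpI, hp⟩ := hinf.exists_notMem_finite (Sys.Anc.finite S (r (pre (f x) N)).1)
    have hx0 := hx.1.1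
    have hNp : S.Anc (r (pre (f x) N)).1 p := by
      rcases hb.comp x hx0 _ (hf x hx N).2 p (hI hpI) with h | h
      · exact h
      · exact absurd h hp
    -- the last n with r (pre n) an ancestor of p
    have hex : ∃ n, ¬ S.Anc (r (pre (f x) (n + 1))).1 p := by
      by_contra hcon
      push Not at hcon
      have h3 : Set.range (fun n => (r (pre (f x) (n + 1))).1) ⊆ {q | S.Anc q p} := by
        rintro _ ⟨n, rfl⟩
        exact hcon n
      refine Set.infinite_range_of_injective ?_ ((Sys.Anc.finite S p).subset h3)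
      intro m n hmn
      have h5 : S.rho (r (pre (f x) (m + 1))).1 = S.rho (r (pre (f x) (n + 1))).1 :=
        congrArg S.rho hmn
      have h6 : m + 1 = n + 1 := (pre_mono (f x)).injective (a₁ := m + 1) (a₂ := n + 1) h5
      omega
    have hspec := Nat.find_spec hex
    have hmin := fun m (hm : m < Nat.find hex) => Nat.find_min hex hm
    set n := Nat.find hex with hn
    have hNn : N ≤ n := by
      by_contra hcon
      exact hspec ((pre_anc (f x) (n + 1) N (by omega)).trans hNp)
    refine ⟨n, hNn, p, ⟨?_, ?_⟩, hpI⟩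
    · -- ancestor
      rcases Nat.eq_zero_or_pos n with h0 | h0
      · have : N = 0 := by omega
        rw [h0, ← this]
        exact hNp
      · obtain ⟨m, hm⟩ : ∃ m, n = m + 1 := ⟨n - 1, by omega⟩
        have := hmin m (by omega)
        rw [hm]
        exact not_not.1 this
    · intro q hq hqp
      have hqb : q ∈ b x := hb.anc_mem hx0 (hI hpI) hqp
      have hrb := (hf x hx (n + 1)).2
      have hrF : (r (pre (f x) (n + 1))).1 ∈ Fr S S0 b (th (r (pre (f x) n))) (r (pre (f x) n)).1 :=
        r_mem _ _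
      have heq : q = (r (pre (f x) (n + 1))).1 := by
        rcases hb.comp x hx0 q hqb _ hrb with h | h
        · exact Fr.anti hq hrF h (Sys.Anc.refl S _)
        · exact Fr.anti hq hrF (Sys.Anc.refl S _) h
      rw [heq] at hqp
      exact hspec hqp

end

end Pool.Agent.W905.ATG
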