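import Mathlib
import Pool.Agent.W905.ATG.Embed

/-!
# Graphs on trees with levels
-/

set_option linter.unusedSectionVars false
set_option linter.unusedVariables false

namespace Pool.Agent.W905.ATG

open Set Order

theorem reach_mono {V : Type*} {G : SimpleGraph V} {s t : Set V} (h : s ⊆ t) {x y : V}
    (hx : x ∈ s) (hy : y ∈ s) (hr : (G.induce s).Reachable ⟨x, hx⟩ ⟨y, hy⟩) :
    (G.induce t).Reachable ⟨x, h hx⟩ ⟨y, h hy⟩ :=
  hr.map (SimpleGraph.induceHomOfLE G h).toHom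

/-- A union of connected sets which are linked to earlier ones is connected. -/
theorem connected_biUnion {V P Om : Type*} [LinearOrder Om] [WellFoundedLT Om]
    (G : SimpleGraph V) (m : P → Om) (M : Set P) (K : P → Set V)
    (hK : ∀ p ∈ M, (G.induce (K p)).Connected) {r : P} (hr : r ∈ M)
    (h : ∀ p ∈ M, p ≠ r → ∃ q ∈ M, m q < m p ∧ ∃ x ∈ K q, ∃ y ∈ K p, G.Adj x y) :
    (G.induce (⋃ p ∈ M, K p)).Connected := by
  have hsub : ∀ p ∈ M, K p ⊆ ⋃ p ∈ M, K p := fun p hp => Set.subset_biUnion_of_mem (u := K) hp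
  obtain ⟨⟨x0, hx0⟩⟩ := (hK r hr).nonempty
  have key : ∀ a : Om, ∀ p (hp : p ∈ M), m p = a → ∀ y (hy : y ∈ K p),
      (G.induce (⋃ p ∈ M, K p)).Reachable ⟨x0, hsub r hr hx0⟩ ⟨y, hsub p hp hy⟩ := by
    intro a
    induction a using WellFoundedLT.induction with
    | ind a ih =>
      intro p hp hpa y hy
      by_cases hpr : p = r
      · subst hpr
        exact reach_mono (hsub p hp) hx0 hy ((hK p hp).preconnected _ _)
      · obtain ⟨q, hq, hqp, x, hx, y', hy', hadj⟩ := h p hp hpr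
        have h1 := ih (m q) (hpa ▸ hqp) q hq rfl x hx
        have h2 : (G.induce (⋃ p ∈ M, K p)).Reachable ⟨x, hsub q hq hx⟩ ⟨y', hsub p hp hy'⟩ :=
          SimpleGraph.Adj.reachable (by simpa using hadj)
        have h3 := reach_mono (hsub p hp) hy' hy ((hK p hp).preconnected ⟨y', hy'⟩ ⟨y, hy⟩)
        exact (h1.trans h2).trans h3
  rw [SimpleGraph.connected_iff_exists_forall_reachable]
  refine ⟨⟨x0, hsub r hr hx0⟩, ?_⟩
  rintro ⟨y, hy⟩
  obtain ⟨p, hp, hyp⟩ := Set.mem_iUnion₂.1 hy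
  exact key _ p hp rfl y hyp

theorem connected_singleton {V : Type*} (G : SimpleGraph V) (v : V) :
    (G.induce ({v} : Set V)).Connected := by
  rw [SimpleGraph.connected_iff_exists_forall_reachable]
  refine ⟨⟨v, rfl⟩, ?_⟩
  rintro ⟨w, hw⟩
  have : w = v := hw
  subst this
  exact SimpleGraph.Reachable.refl _

/-- A tree with countable levels, and a graph on it. -/
structure LTree (Om T : Type*) [LinearOrder Om] [PartialOrder T] (G : SimpleGraph T) where
  lev : T → Om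
  mono : ∀ {s t : T}, s < t → lev s < lev t
  down : ∀ (t : T) (a : Om), a ≤ lev t → ∃ s ≤ t, lev s = a
  cnt : ∀ a, {t | lev t = a}.Countable
  comp : ∀ {s s' t : T}, s ≤ t → s' ≤ t → s ≤ s' ∨ s' ≤ s
  adj : ∀ {s t : T}, G.Adj s t → s < t ∨ t < s
  cof : ∀ {s t : T}, s < t → ∃ u, s ≤ u ∧ u < t ∧ G.Adj u t
  unc : ¬ (Set.univ : Set T).Countable

section

variable {Om T : Type*} [LinearOrder Om] [WellFoundedLT Om] [OmegaOne Om] [PartialOrder T]
  {G : SimpleGraph T} (L : LTree Om T G)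

/-- Points below `x` with a neighbour above `x`. -/
def BB (G : SimpleGraph T) (x : T) : Set T := {v | v < x ∧ ∃ y, x ≤ y ∧ G.Adj v y}

/-- The slab of points above `u` of level below `a`. -/
def LTree.K (u : T) (a : Om) : Set T := {y | u ≤ y ∧ L.lev y < a}

theorem LTree.mono' {s t : T} (h : s ≤ t) : L.lev s ≤ L.lev t := by
  rcases h.lt_or_eq with h | h
  · exact (L.mono h).le
  · rw [h]

theorem BB_mono {x y v : T} (h : x ≤ y) (hv : v ∈ BB G y) (hvx : v < x) : v ∈ BB G x := by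
  obtain ⟨_, w, hw, hadj⟩ := hv
  exact ⟨hvx, w, h.trans hw, hadj⟩

theorem LTree.lt_of_comp {s s' t : T} (h : s ≤ t) (h' : s' ≤ t) (hl : L.lev s < L.lev s') :
    s < s' := by
  rcases L.comp h h' with h1 | h1
  · rcases h1.lt_or_eq with h2 | h2
    · exact h2
    · rw [h2] at hl; exact absurd hl (lt_irrefl _)
  · exact absurd hl (not_lt.2 (L.mono' h1))

theorem LTree.eq_of_comp {s s' t : T} (h : s ≤ t) (h' : s' ≤ t) (hl : L.lev s = L.lev s') :
    s = s' := by
  rcases L.comp h h' with h1 | h1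
  · rcases h1.lt_or_eq with h2 | h2
    · exact absurd (L.mono h2) (by rw [hl]; exact lt_irrefl _)
    · exact h2
  · rcases h1.lt_or_eq with h2 | h2
    · exact absurd (L.mono h2) (by rw [hl]; exact lt_irrefl _)
    · exact h2.symm

theorem LTree.K_conn {u : T} {a : Om} (h : L.lev u < a) : (G.induce (L.K u a)).Connected := by
  have h1 : L.K u a = ⋃ p ∈ L.K u a, ({p} : Set T) := by simp
  have h2 : (G.induce (⋃ p ∈ L.K u a, ({p} : Set T))).Connected := by
    refine connected_biUnion G L.lev (L.K u a) (fun p => {p}) (fun p _ => connected_singleton G p)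
      (r := u) ⟨le_rfl, h⟩ ?_
    rintro p ⟨hup, hpa⟩ hne
    obtain ⟨w, huw, hwp, hadj⟩ := L.cof (lt_of_le_of_ne hup (Ne.symm hne))
    exact ⟨w, ⟨huw, (L.mono hwp).trans hpa⟩, L.mono hwp, w, rfl, p, rfl, hadj⟩
  rwa [← h1] at h2

theorem LTree.K_unique {u u' y : T} {a a' : Om} (h : y ∈ L.K u a) (h' : y ∈ L.K u' a')
    (h1 : u < u' → a ≤ L.lev u') (h2 : u' < u → a' ≤ L.lev u) : u = u' := by
  rcases L.comp h.1 h'.1 with hc | hc
  · rcases hc.lt_or_eq with hc | hc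
    · exact absurd (h.2.trans_le (h1 hc)) (not_lt.2 (L.mono' h'.1))
    · exact hc
  · rcases hc.lt_or_eq with hc | hc
    · exact absurd (h'.2.trans_le (h2 hc)) (not_lt.2 (L.mono' h.1))
    · exact hc.symm

theorem LTree.cnt_lt (a : Om) : {t | L.lev t < a}.Countable := by
  have : {t | L.lev t < a} ⊆ ⋃ b ∈ Set.Iio a, {t | L.lev t = b} := by
    intro t ht
    simp only [Set.mem_iUnion]
    exact ⟨L.lev t, ht, rfl⟩
  exact (Set.Countable.biUnion (OmegaOne.cnt a) fun b _ => L.cnt b).mono this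

theorem LTree.exists_ge_of_unc {X : Set T} (hX : ¬ X.Countable) (a : Om) :
    ∃ x ∈ X, a ≤ L.lev x := by
  by_contra hcon
  push Not at hcon
  exact hX ((L.cnt_lt a).mono fun x hx => hcon x hx)

theorem LTree.exists_lev (a : Om) : ∃ t, L.lev t = a := by
  obtain ⟨x, _, hx⟩ := L.exists_ge_of_unc L.unc a
  obtain ⟨s, _, hs⟩ := L.down x a hx
  exact ⟨s, hs⟩

theorem LTree.exists_wit : ∃ g : Om → Om, (∀ a, a < g a) ∧
    ∀ x, ∀ v ∈ BB G x, ∃ y, x ≤ y ∧ L.lev y < g (L.lev x) ∧ G.Adj v y := by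
  classical
  have hY : ∀ p : T × T, ∃ y, p.2 ∈ BB G p.1 → p.1 ≤ y ∧ G.Adj p.2 y := by
    intro p
    by_cases h : p.2 ∈ BB G p.1
    · obtain ⟨_, y, hy, hadj⟩ := h
      exact ⟨y, fun _ => ⟨hy, hadj⟩⟩
    · exact ⟨p.1, fun h' => absurd h' h⟩
  choose Y hY using hY
  have hg : ∀ a : Om, ∃ c, a < c ∧ ∀ p : T × T, L.lev p.1 = a → p.2 ∈ BB G p.1 →
      L.lev (Y p) < c := by
    intro a
    have h1 : {p : T × T | L.lev p.1 = a ∧ p.2 ∈ BB G p.1}.Countable := by
      refine ((L.cnt a).prod (L.cnt_lt a)).mono ?_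
      rintro p ⟨hp1, hp2⟩
      exact ⟨hp1, hp1 ▸ L.mono hp2.1⟩
    obtain ⟨c, hc⟩ := exists_gt_of_countable (h1.image fun p => L.lev (Y p))
    obtain ⟨c', hc'⟩ := exists_gt' (max a c)
    refine ⟨c', lt_of_le_of_lt (le_max_left _ _) hc', fun p hp1 hp2 => ?_⟩
    exact (hc _ ⟨p, ⟨hp1, hp2⟩, rfl⟩).trans (lt_of_le_of_lt (le_max_right _ _) hc')
  choose g hg1 hg2 using hg
  refine ⟨g, hg1, fun x v hv => ?_⟩
  have := hY (x, v) hv
  exact ⟨Y (x, v), this.1, hg2 _ (x, v) rfl hv, this.2⟩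

/-- At limit levels `B z` is cofinal. -/
theorem LTree.B_cof {z : T} {a : Om} (ha : a < L.lev z) : ∃ v ∈ BB G z, a ≤ L.lev v := by
  obtain ⟨s, hs, hsa⟩ := L.down z a ha.le
  have hsz : s < z := lt_of_le_of_ne hs (by rintro rfl; exact absurd ha (by rw [hsa]; exact lt_irrefl _))
  obtain ⟨u, hsu, huz, hadj⟩ := L.cof hsz
  exact ⟨u, ⟨huz, z, le_rfl, hadj⟩, hsa ▸ L.mono' hsu⟩

end

end Pool.Agent.W905.ATG
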