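import Mathlib
import Pool.Agent.W905.ATG.Graph

/-!
# Piece systems
-/

set_option linter.unusedSectionVars false
set_option linter.unusedVariables false

namespace Pool.Agent.W905.ATG

open Set Order

section

variable {Om T : Type*} [LinearOrder Om] [WellFoundedLT Om] [OmegaOne Om] [PartialOrder T]
  {G : SimpleGraph T}

/-- A system of slabs, and of slabs for the tops. -/
structure Pieces (L : LTree Om T G) where
  U : Set T
  h : T → Om
  hlt : ∀ u ∈ U, L.lev u < h u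
  disj : ∀ u ∈ U, ∀ w ∈ U, u < w → h u ≤ L.lev w
  wit : ∀ u ∈ U, ∀ v ∈ BB G u, ∃ y ∈ L.K u (h u), G.Adj v y
  fin : ∀ u ∈ U, {w | w ∈ U ∧ w < u ∧ (L.K w (h w) ∩ BB G u).Nonempty}.Finite
  S0 : Set Om
  stat : IsStationary S0
  z : Om → T
  k : Om → Om
  zlev : ∀ x ∈ S0, L.lev (z x) = x
  klt : ∀ x ∈ S0, x < k x
  kdisj : ∀ x ∈ S0, ∀ y ∈ S0, x < y → k x ≤ y
  zdown : ∀ x ∈ S0, ∀ u ∈ U, u < z x → h u ≤ x
  zup : ∀ x ∈ S0, ∀ u ∈ U, z x ≤ u → k x ≤ L.lev u
  zwit : ∀ x ∈ S0, ∀ v ∈ BB G (z x), ∃ y ∈ L.K (z x) (k x), G.Adj v y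
  zinf : ∀ x ∈ S0, {w | w ∈ U ∧ w < z x ∧ (L.K w (h w) ∩ BB G (z x)).Nonempty}.Infinite
  zfin : ∀ x ∈ S0, ∀ a < x, {v | v ∈ BB G (z x) ∧ L.lev v < a}.Finite

variable {L : LTree Om T G} (D : Pieces L)

/-- Earlier pieces hit by `B u`. -/
def Pieces.Lo (u : T) : Set T := {w | w ∈ D.U ∧ w < u ∧ (L.K w (D.h w) ∩ BB G u).Nonempty}

theorem Pieces.exists_max (u : T) (hu : u ∈ D.U) (hne : (D.Lo u).Nonempty) :
    ∃ q ∈ D.Lo u, ∀ w ∈ D.Lo u, w ≤ q := by
  obtain ⟨q, hq, hmax⟩ := Set.exists_max_image (D.Lo u) L.lev (D.fin u hu) hne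
  refine ⟨q, hq, fun w hw => ?_⟩
  rcases L.comp hw.2.1.le hq.2.1.le with h | h
  · exact h
  · rcases h.lt_or_eq with h' | h'
    · exact absurd (L.mono h') (not_lt.2 (hmax w hw))
    · exact h'.symm.le

open Classical in
/-- The parent of a piece: the last earlier piece hit by `B u`. -/
noncomputable def Pieces.par (u : D.U) : Option D.U :=
  if h : (D.Lo u.1).Nonempty then
    some ⟨Classical.choose (D.exists_max u.1 u.2 h),
      (Classical.choose_spec (D.exists_max u.1 u.2 h)).1.1⟩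
  else none

theorem Pieces.par_spec {u q : D.U} (h : D.par u = some q) :
    q.1 ∈ D.Lo u.1 ∧ ∀ w ∈ D.Lo u.1, w ≤ q.1 := by
  unfold Pieces.par at h
  split_ifs at h with h1
  have h2 := Classical.choose_spec (D.exists_max u.1 u.2 h1)
  have h3 := Option.some.inj h
  rw [← h3]
  exact h2

theorem Pieces.par_ex {u : D.U} {w : T} (h : w ∈ D.Lo u.1) : ∃ q, D.par u = some q := by
  have h1 : (D.Lo u.1).Nonempty := ⟨w, h⟩
  unfold Pieces.par
  rw [dif_pos h1]
  exact ⟨_, rfl⟩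

/-- The system of pieces. -/
noncomputable def Pieces.sys : Sys Om D.U where
  rho u := L.lev u.1
  par := D.par
  par_lt := fun {p q} h => L.mono (D.par_spec h).1.2.1
  cnt := fun a => (L.cnt a).preimage Subtype.val_injective

theorem Pieces.anc_le {p q : D.U} (h : D.sys.Anc p q) : p.1 ≤ q.1 := by
  induction h using Relation.ReflTransGen.head_induction_on with
  | refl => exact le_rfl
  | head h' _ ih => exact ih.trans (D.par_spec h').1.2.1.le

/-- Uniqueness of the piece containing a point. -/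
theorem Pieces.uniq {u w y : T} (hu : u ∈ D.U) (hw : w ∈ D.U) (h1 : y ∈ L.K u (D.h u))
    (h2 : y ∈ L.K w (D.h w)) : u = w :=
  L.K_unique h1 h2 (D.disj u hu w hw) (D.disj w hw u hu)

/-- The chain lemma. -/
theorem Pieces.chain {x : Om} (hx : x ∈ D.S0) {q1 : D.U} (hq1 : q1.1 ∈ D.Lo (D.z x)) :
    ∀ p : D.U, q1.1 ≤ p.1 → p.1 < D.z x → D.sys.Anc q1 p := by
  have key : ∀ a : Om, ∀ p : D.U, L.lev p.1 = a → q1.1 ≤ p.1 → p.1 < D.z x →
      D.sys.Anc q1 p := by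
    intro a
    induction a using WellFoundedLT.induction with
    | ind a ih =>
      intro p hpa hle hlt
      rcases hle.lt_or_eq with hl | hl
      · obtain ⟨_, _, v, hv1, hv2⟩ := hq1
        -- v is below p
        have hvp : v < p.1 := by
          refine L.lt_of_comp hv2.1.le hlt.le ?_
          exact hv1.2.trans_le (D.disj q1.1 q1.2 p.1 p.2 hl)
        have hmem : q1.1 ∈ D.Lo p.1 := ⟨q1.2, hl, v, hv1, BB_mono hlt.le hv2 hvp⟩
        obtain ⟨q, hq⟩ := D.par_ex hmem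
        have hs := D.par_spec hq
        have h1 : D.sys.Anc q1 q :=
          ih _ (hpa ▸ L.mono hs.1.2.1) q rfl (hs.2 _ hmem) (hs.1.2.1.trans hlt)
        exact h1.trans (Sys.Anc.of_par (S := D.sys) hq)
      · have : q1 = p := Subtype.ext hl
        rw [this]
        exact Sys.Anc.refl _ _
  intro p h1 h2
  exact key _ p rfl h1 h2

/-- The chain of a top. -/
def Pieces.b (x : Om) : Set D.U := {p | ∃ q : D.U, q.1 ∈ D.Lo (D.z x) ∧ D.sys.Anc p q}

theorem Pieces.Lo_comp {x : Om} (hx : x ∈ D.S0) {q q' : D.U} (h : q.1 ∈ D.Lo (D.z x))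
    (h' : q'.1 ∈ D.Lo (D.z x)) : D.sys.Anc q q' ∨ D.sys.Anc q' q := by
  rcases L.comp h.2.1.le h'.2.1.le with hc | hc
  · exact Or.inl (D.chain hx h q' hc h'.2.1)
  · exact Or.inr (D.chain hx h' q hc h.2.1)

theorem Pieces.exists_high {x : Om} (hx : x ∈ D.S0) {a : Om} (ha : a < x) :
    ∃ q : D.U, q.1 ∈ D.Lo (D.z x) ∧ a ≤ L.lev q.1 := by
  by_contra hcon
  push Not at hcon
  have hinf := D.zinf x hx
  apply hinf
  -- choose witnesses
  have hv : ∀ w, ∃ v, w ∈ D.Lo (D.z x) → v ∈ L.K w (D.h w) ∩ BB G (D.z x) := by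
    intro w
    by_cases hw : w ∈ D.Lo (D.z x)
    · obtain ⟨v, hv⟩ := hw.2.2
      exact ⟨v, fun _ => hv⟩
    · exact ⟨w, fun h => absurd h hw⟩
  choose v hv using hv
  have hinj : Set.InjOn v (D.Lo (D.z x)) := by
    intro w hw w' hw' he
    have h1 := (hv w hw).1
    have h2 := (hv w' hw').1
    rw [← he] at h2
    exact D.uniq hw.1 hw'.1 h1 h2
  let Q1 : Set T := {w | w ∈ D.Lo (D.z x) ∧ L.lev (v w) < a}
  let Q2 : Set T := {w | w ∈ D.Lo (D.z x) ∧ a ≤ L.lev (v w)}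
  have hQ1 : Q1.Finite := by
    refine Set.Finite.of_finite_image ((D.zfin x hx a ha).subset ?_)
      (hinj.mono fun w hw => hw.1)
    rintro _ ⟨w, hw, rfl⟩
    exact ⟨(hv w hw.1).2, hw.2⟩
  have hQ2 : Q2.Subsingleton := by
    intro w hw w' hw'
    have key : ∀ {w w' : T}, w ∈ Q2 → w' ∈ Q2 → w < w' → False := by
      intro w w' hw hw' h
      have h1 : D.h w ≤ L.lev w' := D.disj w hw.1.1 w' hw'.1.1 h
      have h2 : L.lev w' < a := hcon ⟨w', hw'.1.1⟩ hw'.1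
      have h3 := (hv w hw.1).1.2
      exact absurd (h3.trans_le (h1.trans h2.le)) (not_lt.2 hw.2)
    rcases L.comp hw.1.2.1.le hw'.1.2.1.le with hc | hc
    · rcases hc.lt_or_eq with hc | hc
      · exact (key hw hw' hc).elim
      · exact hc
    · rcases hc.lt_or_eq with hc | hc
      · exact (key hw' hw hc).elim
      · exact hc.symm
  refine (hQ1.union hQ2.finite).subset ?_
  intro w hw
  rcases lt_or_ge (L.lev (v w)) a with h | h
  · exact Or.inl ⟨hw, h⟩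
  · exact Or.inr ⟨hw, h⟩

theorem Pieces.chains : Chains D.sys D.S0 D.b where
  lt := by
    rintro x hx p ⟨q, hq, hpq⟩
    have h1 := hpq.le
    have h2 : L.lev q.1 < x := by
      have := L.mono hq.2.1
      rwa [D.zlev x hx] at this
    exact lt_of_le_of_lt h1 h2
  up := by
    rintro x hx p ⟨q, hq, hpq⟩ p' hp'
    exact ⟨q, hq, (Sys.Anc.of_par (S := D.sys) hp').trans hpq⟩
  comp := by
    rintro x hx p ⟨q, hq, hpq⟩ p' ⟨q', hq', hpq'⟩
    rcases D.Lo_comp hx hq hq' with h | h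
    · exact (hpq.trans h).total hpq'
    · exact hpq.total (hpq'.trans h)
  fin := by
    intro x hx a ha
    obtain ⟨q', hq', haq'⟩ := D.exists_high hx ha
    refine (Sys.Anc.finite D.sys q').subset ?_
    rintro p ⟨⟨q, hq, hpq⟩, hpa⟩
    rcases D.Lo_comp hx hq hq' with h | h
    · exact hpq.trans h
    · rcases hpq.total h with h1 | h1
      · exact h1
      · exact absurd (haq'.trans h1.le) (not_le.2 hpa)
  inf := by
    intro x hx hfin
    apply D.zinf x hx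
    refine (hfin.image Subtype.val).subset ?_
    intro w hw
    exact ⟨⟨w, hw.1⟩, ⟨⟨w, hw.1⟩, hw, Sys.Anc.refl _ _⟩, rfl⟩

include D in
/-- What the embedding lemma gives for a graph with a piece system. -/
theorem Pieces.main (hcard : ∀ F : Set T, ¬ F.Countable → Nonempty (Om ≃ F)) :
    ∃ (V : List Om → Set T) (S1 : Set Om) (f : Om → ℕ → Om) (Z : Om → Set T),
      (∀ s, (G.induce (V s)).Connected) ∧
      (∀ s t, s ≠ t → Disjoint (V s) (V t)) ∧
      (∀ s a, ∃ x ∈ V s, ∃ y ∈ V (a :: s), G.Adj x y) ∧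
      IsStationary S1 ∧ (∀ x ∈ S1, Order.IsSuccLimit x) ∧
      (∀ x ∈ S1, (∀ n, f x n < x) ∧ ∀ a < x, ∃ n, a ≤ f x n) ∧
      (∀ x ∈ S1, (G.induce (Z x)).Connected) ∧
      (∀ x ∈ S1, ∀ y ∈ S1, x ≠ y → Disjoint (Z x) (Z y)) ∧
      (∀ x ∈ S1, ∀ s, Disjoint (V s) (Z x)) ∧
      (∀ x ∈ S1, ∀ N, ∃ n ≥ N, ∃ u ∈ V (pre (f x) n), ∃ w ∈ Z x, G.Adj u w) := by
  have hcard' : ∀ F : Set D.U, ¬ F.Countable → Nonempty (Om ≃ F) := by
    intro F hF
    have h1 : ¬ (Subtype.val '' F : Set T).Countable := by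
      intro h
      exact hF (Set.countable_of_injective_of_countable_image Subtype.val_injective.injOn h)
    obtain ⟨e⟩ := hcard _ h1
    exact ⟨e.trans (Equiv.Set.image _ F Subtype.val_injective).symm⟩
  obtain ⟨M, S1, f, hM1, hM2, hM3, hS1, hstat, hlim, hf, hadj⟩ :=
    embed D.sys D.stat D.chains hcard'
  refine ⟨fun s => ⋃ p ∈ M s, L.K p.1 (D.h p.1), S1, f, fun x => L.K (D.z x) (D.k x),
    ?_, ?_, ?_, hstat, hlim, hf, ?_, ?_, ?_, ?_⟩
  · intro s
    obtain ⟨r, hr, hr'⟩ := hM1 s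
    refine connected_biUnion G (fun p : D.U => L.lev p.1) (M s) (fun p => L.K p.1 (D.h p.1))
      (fun p _ => L.K_conn (D.hlt p.1 p.2)) hr ?_
    intro p hp hne
    obtain ⟨q, hq, hpq⟩ := hr' p hp hne
    obtain ⟨⟨_, hlt, v, hv1, hv2⟩, _⟩ := D.par_spec hpq
    obtain ⟨y, hy, hvy⟩ := D.wit p.1 p.2 v hv2
    exact ⟨q, hq, L.mono hlt, v, hv1, y, hy, hvy⟩
  · intro s t hne
    rw [Set.disjoint_left]
    intro y hy1 hy2
    obtain ⟨p, hp, hyp⟩ := Set.mem_iUnion₂.1 hy1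
    obtain ⟨q, hq, hyq⟩ := Set.mem_iUnion₂.1 hy2
    have : p = q := Subtype.ext (D.uniq p.2 q.2 hyp hyq)
    subst this
    exact Set.disjoint_left.1 (hM2 s t hne) hp hq
  · intro s a
    obtain ⟨p, hp, q, hq, hpq⟩ := hM3 s a
    obtain ⟨⟨_, hlt, v, hv1, hv2⟩, _⟩ := D.par_spec hpq
    obtain ⟨y, hy, hvy⟩ := D.wit p.1 p.2 v hv2
    exact ⟨v, Set.mem_iUnion₂.2 ⟨q, hq, hv1⟩, y, Set.mem_iUnion₂.2 ⟨p, hp, hy⟩, hvy⟩
  · intro x hx
    refine L.K_conn ?_
    rw [D.zlev x (hS1 hx)]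
    exact D.klt x (hS1 hx)
  · intro x hx y hy hne
    rw [Set.disjoint_left]
    intro t ht1 ht2
    have h1 : D.z x = D.z y := L.K_unique ht1 ht2
      (fun h => by
        rw [D.zlev y (hS1 hy)]
        apply D.kdisj x (hS1 hx) y (hS1 hy)
        have := L.mono h
        rwa [D.zlev x (hS1 hx), D.zlev y (hS1 hy)] at this)
      (fun h => by
        rw [D.zlev x (hS1 hx)]
        apply D.kdisj y (hS1 hy) x (hS1 hx)
        have := L.mono h
        rwa [D.zlev x (hS1 hx), D.zlev y (hS1 hy)] at this)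
    apply hne
    rw [← D.zlev x (hS1 hx), ← D.zlev y (hS1 hy), h1]
  · intro x hx s
    rw [Set.disjoint_left]
    intro t ht1 ht2
    obtain ⟨p, hp, htp⟩ := Set.mem_iUnion₂.1 ht1
    have h1 : p.1 = D.z x := L.K_unique htp ht2
      (fun h => by
        rw [D.zlev x (hS1 hx)]
        exact D.zdown x (hS1 hx) p.1 p.2 h)
      (fun h => D.zup x (hS1 hx) p.1 p.2 h.le)
    have h2 := D.zup x (hS1 hx) p.1 p.2 h1.symm.le
    rw [h1, D.zlev x (hS1 hx)] at h2
    exact absurd (D.klt x (hS1 hx)) (not_lt.2 h2)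
  · intro x hx N
    let I : Set D.U := {p | p.1 ∈ D.Lo (D.z x)}
    have hI : I ⊆ D.b x := fun p hp => ⟨p, hp, Sys.Anc.refl _ _⟩
    have hinf : I.Infinite := by
      intro hfin
      apply D.zinf x (hS1 hx)
      refine (hfin.image Subtype.val).subset ?_
      intro w hw
      exact ⟨⟨w, hw.1⟩, hw, rfl⟩
    obtain ⟨n, hn, p, hpM, hpI⟩ := hadj x hx I hI hinf N
    obtain ⟨_, _, v, hv1, hv2⟩ := hpI
    obtain ⟨y, hy, hvy⟩ := D.zwit x (hS1 hx) v hv2
    exact ⟨n, hn, v, Set.mem_iUnion₂.2 ⟨p, hpM, hv1⟩, y, hy, hvy⟩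

end

end Pool.Agent.W905.ATG
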