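import Mathlib
import Pool.Agent.W905.ATG.Pieces

/-!
# Either uncountably many points see infinitely much below a fixed level, or a piece system exists
-/

set_option linter.unusedSectionVars false
set_option linter.unusedVariables false

namespace Pool.Agent.W905.ATG

open Set Order

section

variable {Om T : Type*} [LinearOrder Om] [WellFoundedLT Om] [OmegaOne Om] [PartialOrder T]
  {G : SimpleGraph T} (L : LTree Om T G)

/-- The recursive colouring: `A x` iff only finitely many earlier slabs with base satisfying `A`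
are hit by `B x`. -/
theorem exists_col (C : Set Om) : ∃ A : T → Prop, ∀ x, A x ↔
    {u | L.lev u ∈ C ∧ A u ∧ u < x ∧ (L.K u (nx C (L.lev u)) ∩ BB G x).Nonempty}.Finite := by
  have hwf : WellFounded ((· < ·) : T → T → Prop) := by
    have h1 : WellFounded (InvImage (· < ·) L.lev) := InvImage.wf _ wellFounded_lt
    exact Subrelation.wf (fun {a b} h => L.mono h) h1
  let F : ∀ x : T, (∀ u, u < x → Prop) → Prop := fun x ih =>
    {u | L.lev u ∈ C ∧ (∃ h : u < x, ih u h) ∧
      (L.K u (nx C (L.lev u)) ∩ BB G x).Nonempty}.Finite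
  refine ⟨hwf.fix F, fun x => ?_⟩
  rw [hwf.fix_eq]
  have : {u | L.lev u ∈ C ∧ (∃ _ : u < x, hwf.fix F u) ∧
      (L.K u (nx C (L.lev u)) ∩ BB G x).Nonempty} = {u | L.lev u ∈ C ∧ hwf.fix F u ∧ u < x ∧
      (L.K u (nx C (L.lev u)) ∩ BB G x).Nonempty} := by
    ext u
    constructor
    · rintro ⟨h1, ⟨h2, h3⟩, h4⟩
      exact ⟨h1, h3, h2, h4⟩
    · rintro ⟨h1, h3, h2, h4⟩
      exact ⟨h1, ⟨h2, h3⟩, h4⟩
  change Set.Finite _ ↔ _
  rw [this]

/-- Finitely many disjoint pieces are hit by a finite set. -/
theorem fin_pieces {U : Set T} {h : T → Om}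
    (disj : ∀ u ∈ U, ∀ w ∈ U, u < w → h u ≤ L.lev w) {F : Set T} (hF : F.Finite) {Q : Set T}
    (hQU : Q ⊆ U) (hQ : ∀ w ∈ Q, (L.K w (h w) ∩ F).Nonempty) : Q.Finite := by
  classical
  have hv : ∀ w, ∃ v, w ∈ Q → v ∈ L.K w (h w) ∩ F := by
    intro w
    by_cases hw : w ∈ Q
    · obtain ⟨v, hv⟩ := hQ w hw
      exact ⟨v, fun _ => hv⟩
    · exact ⟨w, fun h' => absurd h' hw⟩
  choose v hv using hv
  refine Set.Finite.of_finite_image (f := v) (hF.subset ?_) ?_
  · rintro _ ⟨w, hw, rfl⟩
    exact (hv w hw).2
  · intro w hw w' hw' he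
    have h1 := (hv w hw).1
    have h2 := (hv w' hw').1
    rw [← he] at h2
    exact L.K_unique h1 h2 (disj w (hQU hw) w' (hQU hw')) (disj w' (hQU hw') w (hQU hw))

theorem pieces_of_countable
    (hcount : ∀ a, {x | (BB G x ∩ {v | L.lev v < a}).Infinite}.Countable) :
    Nonempty (Pieces L) := by
  classical
  -- the club
  have hg1 : ∀ a, ∃ c, ∀ x, (BB G x ∩ {v | L.lev v < a}).Infinite → L.lev x < c := by
    intro a
    obtain ⟨c, hc⟩ := exists_gt_of_countable ((hcount a).image L.lev)
    exact ⟨c, fun x hx => hc _ ⟨x, hx, rfl⟩⟩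
  choose g1 hg1 using hg1
  obtain ⟨g, _, hg⟩ := L.exists_wit
  let C : Set Om := {c | ∀ a < c, g1 a < c} ∩ {c | ∀ a < c, g a < c}
  have hC : IsClub C := isClub_inter (isClub_closed g1) (isClub_closed g)
  have C1 : ∀ c ∈ C, ∀ a < c, ∀ x, c ≤ L.lev x → {v | v ∈ BB G x ∧ L.lev v < a}.Finite := by
    intro c hc a ha x hx
    by_contra hcon
    have h1 : (BB G x ∩ {v | L.lev v < a}).Infinite := hcon
    exact absurd ((hg1 a x h1).trans (hc.1 a ha)) (not_lt.2 hx)
  have C2 : ∀ c ∈ C, ∀ x, L.lev x < c → ∀ v ∈ BB G x, ∃ y ∈ L.K x c, G.Adj v y := by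
    intro c hc x hx v hv
    obtain ⟨y, hy1, hy2, hy3⟩ := hg x v hv
    exact ⟨y, ⟨hy1, hy2.trans (hc.2 _ hx)⟩, hy3⟩
  obtain ⟨A, hA⟩ := exists_col L C
  by_cases hst : IsStationary {c | c ∈ C ∧ ∃ z, L.lev z = c ∧ ¬ A z}
  · -- first case
    have hz : ∀ x, ∃ z, x ∈ {c | c ∈ C ∧ ∃ z, L.lev z = c ∧ ¬ A z} → L.lev z = x ∧ ¬ A z := by
      intro x
      by_cases hx : x ∈ {c | c ∈ C ∧ ∃ z, L.lev z = c ∧ ¬ A z}
      · obtain ⟨_, z, hz⟩ := hx
        exact ⟨z, fun _ => hz⟩
      · obtain ⟨z, _⟩ := L.exists_lev x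
        exact ⟨z, fun h => absurd h hx⟩
    choose z hz using hz
    exact ⟨{
      U := {u | L.lev u ∈ C ∧ A u}
      h := fun u => nx C (L.lev u)
      hlt := fun u _ => lt_nx hC _
      disj := fun u _ w hw h => nx_le hC hw.1 (L.mono h)
      wit := fun u _ v hv => C2 _ (nx_mem hC _) u (lt_nx hC _) v hv
      fin := by
        intro u hu
        refine ((hA u).1 hu.2).subset ?_
        rintro w ⟨⟨h1, h2⟩, h3, h4⟩
        exact ⟨h1, h2, h3, h4⟩
      S0 := {c | c ∈ C ∧ ∃ z, L.lev z = c ∧ ¬ A z}
      stat := hst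
      z := z
      k := nx C
      zlev := fun x hx => (hz x hx).1
      klt := fun x _ => lt_nx hC x
      kdisj := fun x _ y hy h => nx_le hC hy.1 h
      zdown := by
        intro x hx u _ h
        have := L.mono h
        rw [(hz x hx).1] at this
        exact nx_le hC hx.1 this
      zup := by
        intro x hx u hu h
        refine nx_le hC hu.1 ?_
        rcases h.lt_or_eq with h | h
        · have := L.mono h
          rwa [(hz x hx).1] at this
        · exact absurd (h ▸ hu.2) (hz x hx).2
      zwit := by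
        intro x hx v hv
        refine C2 _ (nx_mem hC _) (z x) ?_ v hv
        rw [(hz x hx).1]
        exact lt_nx hC x
      zinf := by
        intro x hx hfin
        apply (hz x hx).2
        rw [hA]
        refine hfin.subset ?_
        rintro w ⟨h1, h2, h3, h4⟩
        exact ⟨⟨h1, h2⟩, h3, h4⟩
      zfin := by
        intro x hx a ha
        exact C1 x hx.1 a ha (z x) (hz x hx).1.symm.le }⟩
  · -- second case
    obtain ⟨D', hD', hdis⟩ := not_isStationary_iff.1 hst
    let D : Set Om := D' ∩ lim C
    have hD : IsClub D := isClub_inter hD' (isClub_lim C)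
    have hDlim : ∀ d ∈ D, ∀ a < d, nx C a < d := fun d hd a ha => hd.2.2 a ha
    have hDC : ∀ d ∈ D, d ∈ C := fun d hd => lim_subset hC hd.2
    have hDA : ∀ z, L.lev z ∈ D → A z := by
      intro z hz
      by_contra hcon
      exact Set.disjoint_left.1 hdis ⟨hDC _ hz, z, rfl, hcon⟩ hz.1
    choose z hz using L.exists_lev
    -- key inequality
    have K1 : ∀ d d', d ∈ D → d' ∈ D → nx C d < nx C d' → nx D (nx C d) ≤ d' := by
      intro d d' hd hd' h
      have h1 : nx C d ≤ d' := le_of_lt_nx hC (nx_mem hC d) h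
      have h2 : nx C d ≠ d' := by
        intro h2
        have h3 : nx C d < d' := hDlim d' hd' d (by rw [← h2]; exact lt_nx hC d)
        exact absurd h3 (by rw [h2]; exact lt_irrefl _)
      exact nx_le hD hd' (lt_of_le_of_ne h1 h2)
    have hdisj : ∀ u ∈ {u | ∃ d ∈ D, L.lev u = nx C d}, ∀ w ∈ {u | ∃ d ∈ D, L.lev u = nx C d},
        u < w → nx D (L.lev u) ≤ L.lev w := by
      rintro u ⟨d, hd, hu⟩ w ⟨d', hd', hw⟩ huw
      have h1 := L.mono huw
      rw [hu, hw] at h1
      rw [hu, hw]
      exact (K1 d d' hd hd' h1).trans (lt_nx hC d').le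
    exact ⟨{
      U := {u | ∃ d ∈ D, L.lev u = nx C d}
      h := fun u => nx D (L.lev u)
      hlt := fun u _ => lt_nx hD _
      disj := hdisj
      wit := fun u _ v hv => C2 _ (hDC _ (nx_mem hD _)) u (lt_nx hD _) v hv
      fin := by
        rintro w ⟨d, hd, hw⟩
        have hF : {v | v ∈ BB G w ∧ L.lev v < d}.Finite :=
          C1 (nx C d) (nx_mem hC d) d (lt_nx hC d) w hw.symm.le
        refine fin_pieces L hdisj hF (fun u hu => hu.1) ?_
        rintro u ⟨⟨d1, hd1, hu⟩, huw, v, hv1, hv2⟩
        refine ⟨v, hv1, hv2, hv1.2.trans_le ?_⟩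
        have h1 := L.mono huw
        rw [hu, hw] at h1
        rw [hu]
        exact K1 d1 d hd1 hd h1
      S0 := lim D
      stat := isStationary_of_isClub (isClub_lim D)
      z := z
      k := nx C
      zlev := fun x _ => hz x
      klt := fun x _ => lt_nx hC x
      kdisj := fun x _ y hy h => nx_le hC (hDC _ (lim_subset hD hy)) h
      zdown := by
        intro x hx u _ h
        have := L.mono h
        rw [hz x] at this
        exact nx_le hD (lim_subset hD hx) this
      zup := by
        rintro x hx u ⟨d, hd, hu⟩ h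
        have h1 := L.mono' h
        rw [hz x] at h1
        refine nx_le hC (hu ▸ nx_mem hC d) (lt_of_le_of_ne h1 ?_)
        intro h2
        have h3 : nx C d < x := hDlim x (lim_subset hD hx) d (by rw [h2, hu]; exact lt_nx hC d)
        rw [h2, hu] at h3
        exact lt_irrefl _ h3
      zwit := by
        intro x _ v hv
        refine C2 _ (nx_mem hC _) (z x) ?_ v hv
        rw [hz x]
        exact lt_nx hC x
      zinf := by
        intro x hx hfin
        have hxD : x ∈ D := lim_subset hD hx
        have hxC : x ∈ C := hDC x hxD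
        have hAz : A (z x) := hDA _ (by rw [hz x]; exact hxD)
        have hE := (hA (z x)).1 hAz
        obtain ⟨a0, ha0⟩ := hx.1
        have hd0D : nx D a0 ∈ D := nx_mem hD a0
        have hd0x : nx D a0 < x := hx.2 a0 ha0
        have hpart : ∀ a < x, {v | v ∈ BB G (z x) ∧ L.lev v < a}.Finite := fun a ha =>
          C1 x hxC a ha (z x) (hz x).symm.le
        have hBfin : (BB G (z x)).Finite := by
          refine (((hpart _ hd0x).union (hE.biUnion (t := fun u =>
            {v | v ∈ BB G (z x) ∧ L.lev v < nx C (L.lev u)}) ?_)).union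
            (hfin.biUnion (t := fun w =>
            {v | v ∈ BB G (z x) ∧ L.lev v < nx D (L.lev w)}) ?_)).subset ?_
          · intro u hu
            refine hpart _ (hDlim x hxD _ ?_)
            have := L.mono hu.2.2.1
            rwa [hz x] at this
          · intro w hw
            refine hpart _ (hx.2 _ ?_)
            have := L.mono hw.2.1
            rwa [hz x] at this
          · intro v hv
            rcases lt_or_ge (L.lev v) (nx D a0) with h | h
            · exact Or.inl (Or.inl ⟨hv, h⟩)
            obtain ⟨c, hc, hd0c, hcv, hvc⟩ := exists_floor hC (hDC _ hd0D) h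
            obtain ⟨u, huv, hu⟩ := L.down v c hcv
            have huz : u < z x := lt_of_le_of_lt huv hv.1
            by_cases hAu : A u
            · left; right
              refine Set.mem_iUnion₂.2 ⟨u, ⟨by rw [hu]; exact hc, hAu, huz, v, ⟨huv, ?_⟩, hv⟩,
                hv, ?_⟩
              · rw [hu]; exact hvc
              · rw [hu]; exact hvc
            · right
              have hcD : c ∉ D := fun h' => hAu (hDA u (by rw [hu]; exact h'))
              obtain ⟨d, hd, _, hdc, hcd⟩ := exists_floor hD hd0D hd0c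
              have hdc' : d < c := lt_of_le_of_ne hdc (by rintro rfl; exact hcD hd)
              have h1 : nx C d ≤ c := nx_le hC hc hdc'
              obtain ⟨w, hwu, hw⟩ := L.down u (nx C d) (by rw [hu]; exact h1)
              have h2 : nx D d ≤ nx D (L.lev w) := by
                refine nx_le hD (nx_mem hD _) ?_
                rw [hw]
                exact (lt_nx hC d).trans (lt_nx hD _)
              have h3 : L.lev v < nx D (L.lev w) := by
                refine hvc.trans_le (nx_le hC (hDC _ (nx_mem hD _)) ?_)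
                exact hcd.trans_le h2
              refine Set.mem_iUnion₂.2 ⟨w, ⟨⟨d, hd, hw⟩, lt_of_le_of_lt hwu huz, v,
                ⟨hwu.trans huv, h3⟩, hv⟩, hv, h3⟩
        -- but B z is unbounded
        obtain ⟨v0, hv0, _⟩ := L.B_cof (z := z x) (a := a0) (by rw [hz x]; exact ha0)
        obtain ⟨m, hm, hmax⟩ := Set.exists_max_image _ L.lev hBfin ⟨v0, hv0⟩
        have hmx : L.lev m < x := by
          have := L.mono hm.1
          rwa [hz x] at this
        obtain ⟨v, hv, hle⟩ := L.B_cof (z := z x) (a := nx D (L.lev m))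
          (by rw [hz x]; exact hx.2 _ hmx)
        exact absurd (lt_nx hD (L.lev m)) (not_lt.2 (hle.trans (hmax v hv)))
      zfin := by
        intro x hx a ha
        exact C1 x (hDC _ (lim_subset hD hx)) a ha (z x) (hz x).symm.le }⟩

end

end Pool.Agent.W905.ATG
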