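import Mathlib

/-!
# Aronszajn tree graphs: definitions

These are the definitions used in the statement of the hand-in for MP_1b6412_co.
-/

namespace Pool.Agent.W905.ATG

open Cardinal Ordinal

universe u v

/-- `H` is a minor of `G`: the vertices of `H` get nonempty, connected, possibly infinite, pairwise
disjoint sets of vertices of `G`, with an edge of `G` between the sets of adjacent vertices. -/
def IsMinor {W : Type v} {V : Type u} (H : SimpleGraph W) (G : SimpleGraph V) : Prop :=
  ∃ B : W → Set V, (∀ x, (G.induce (B x)).Connected) ∧ (∀ x y, x ≠ y → Disjoint (B x) (B y)) ∧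
    ∀ x y, H.Adj x y → ∃ a ∈ B x, ∃ b ∈ B y, G.Adj a b

/-- Order trees: a least element, and all sets `{s | s ≤ t}` are well-ordered. -/
structure IsOrderTree (T : Type u) [PartialOrder T] : Prop where
  exists_least : ∃ r : T, ∀ t, r ≤ t
  wellOrdered : ∀ t : T, IsWellOrder (Set.Iic t) (· < ·)

/-- Level `i`: the points `t` such that `{s | s < t}` has order type `i`. -/
def Level (T : Type u) [PartialOrder T] (i : Ordinal.{u}) : Set T :=
  {t | ∃ _ : IsWellOrder (Set.Iio t) (· < ·),
    Ordinal.type ((· < ·) : Set.Iio t → Set.Iio t → Prop) = i}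

/-- Aronszajn trees: order trees of size `ℵ₁` all of whose levels and branches (maximal chains)
are countable. -/
structure IsAronszajnTree (T : Type u) [PartialOrder T] : Prop where
  orderTree : IsOrderTree T
  card_eq : #T = ℵ₁
  countable_level : ∀ i : Ordinal.{u}, (Level T i).Countable
  countable_branch : ∀ b : Set T, IsMaxChain (· ≤ ·) b → b.Countable

/-- `G` is a `T`-graph: edges join comparable points, and the neighbours of `t` below `t` are
cofinal in `{s | s < t}`. -/
structure IsTreeGraph {T : Type u} [PartialOrder T] (G : SimpleGraph T) : Prop where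
  comparable : ∀ s t, G.Adj s t → s ≤ t ∨ t ≤ s
  cofinal : ∀ t, ∀ s < t, ∃ u, s ≤ u ∧ u < t ∧ G.Adj u t

/-- `(ℵ₀, ℵ₁)`-graphs. -/
def IsAlephGraph {W : Type u} (H : SimpleGraph W) : Prop :=
  ∃ A B : Set W, Disjoint A B ∧ A ∪ B = Set.univ ∧
    (∀ x y, H.Adj x y → (x ∈ A ∧ y ∈ B) ∨ (x ∈ B ∧ y ∈ A)) ∧
    #A = ℵ₀ ∧ #B = ℵ₁ ∧ ∀ y ∈ B, (H.neighborSet y).Infinite

/-- The countable ordinals. -/
abbrev Om1 : Type (u + 1) := Set.Iio (ω₁ : Ordinal.{u})

/-- Sequences of length at most `ω` of elements of `X`. -/
inductive Sq (X : Type u) : Type u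
  | fin (l : List X) : Sq X
  | inf (f : ℕ → X) : Sq X

/-- The initial segment of length `n` of an infinite sequence. -/
def seg {X : Type u} (f : ℕ → X) (n : ℕ) : List X := (List.range n).map f

/-- `s` is an initial segment of `t` (or equal to it). -/
def Sq.Le {X : Type u} : Sq X → Sq X → Prop
  | .fin l, .fin m => l <+: m
  | .fin l, .inf f => ∃ n, l = seg f n
  | .inf _, .fin _ => False
  | .inf f, .inf g => f = g

theorem seg_length {X : Type u} (f : ℕ → X) (n : ℕ) : (seg f n).length = n := by
  simp [seg]

theorem seg_succ {X : Type u} (f : ℕ → X) (n : ℕ) : seg f (n + 1) = seg f n ++ [f n] := by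
  simp [seg, List.range_succ]

theorem seg_prefix {X : Type u} (f : ℕ → X) {m n : ℕ} (h : m ≤ n) : seg f m <+: seg f n := by
  induction n, h using Nat.le_induction with
  | base => exact List.prefix_rfl
  | succ n _ ih =>
    rw [seg_succ]
    exact ih.trans (List.prefix_append _ _)

theorem eq_seg_of_prefix {X : Type u} {f : ℕ → X} {l : List X} {n : ℕ} (h : l <+: seg f n) :
    l = seg f l.length := by
  have h1 : l.length ≤ n := by
    have := h.length_le
    rwa [seg_length] at this
  have h2 := seg_prefix f h1
  exact (List.prefix_of_prefix_length_le h h2 (by rw [seg_length])).eq_of_length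
    (by rw [seg_length])

/-- The tree of sequences of length at most `ω`, ordered by initial segment. -/
instance {X : Type u} : PartialOrder (Sq X) where
  le := Sq.Le
  le_refl := by
    rintro (l | f)
    · exact List.prefix_rfl
    · exact rfl
  le_trans := by
    rintro (l | f) (m | g) (k | h) h1 h2
    · exact List.IsPrefix.trans h1 h2
    · obtain ⟨n, rfl⟩ := h2
      exact ⟨_, eq_seg_of_prefix h1⟩
    · exact absurd h2 id
    · cases h2
      exact h1
    · exact absurd h1 id
    · exact absurd h1 id
    · exact absurd h2 id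
    · cases h1
      exact h2
  le_antisymm := by
    rintro (l | f) (m | g) h1 h2
    · exact congrArg Sq.fin (List.IsPrefix.eq_of_length_le h1 h2.length_le)
    · exact absurd h2 id
    · exact absurd h1 id
    · exact congrArg Sq.inf h1

/-- The vertices of `G_{ω₁}(S)`: all finite sequences, and the sequences `f s` for `s ∈ S`. -/
def verts {X : Type u} (S : Set X) (f : X → ℕ → X) : Set (Sq X) :=
  {x | (∃ l, x = Sq.fin l) ∨ ∃ s ∈ S, x = Sq.inf (f s)}

/-- Some graph `G_{ω₁}(S)` with `S` stationary is a minor of `G`: there are a stationary set `S` of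
countable limit ordinals, a `T`-graph `Gom` on the tree of all sequences of countable ordinals of
length at most `ω`, and sequences `f s : ℕ → s` cofinal in `s`, for `s ∈ S`, such that the
subgraph of `Gom` induced by the finite sequences and the `f s` is a minor of `G`. -/
def HasStationaryMinor {V : Type u} (G : SimpleGraph V) : Prop :=
  ∃ (S : Set Om1.{u}) (Gom : SimpleGraph (Sq Om1.{u})) (f : Om1.{u} → ℕ → Om1.{u}),
    IsStationary S ∧ (∀ s ∈ S, Order.IsSuccLimit s) ∧ IsTreeGraph Gom ∧
    (∀ s ∈ S, (∀ n, f s n < s) ∧ ∀ a < s, ∃ n, a ≤ f s n) ∧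
    IsMinor (Gom.induce (verts S f)) G

end Pool.Agent.W905.ATG
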