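import Mathlib
import Pool.Agent.W905.ATG.Cases
import Pool.Agent.W905.ATG.Defs

/-!
# Every Aronszajn tree graph has one of the two minors
-/

set_option linter.unusedSectionVars false
set_option linter.unusedVariables false

namespace Pool.Agent.W905.ATG

open Set Order Cardinal Ordinal

universe u v

/-! ### The countable ordinals -/

theorem mk_Om1 : #(Om1.{u}) = Cardinal.lift.{u + 1} (ℵ₁ : Cardinal.{u}) := by
  rw [Cardinal.mk_Iio_ordinal, Ordinal.card_omega]

instance : OmegaOne Om1.{u} where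
  unc := by
    intro h
    rw [Set.countable_univ_iff, ← Cardinal.mk_le_aleph0_iff, mk_Om1,
      Cardinal.lift_le_aleph0] at h
    exact absurd h (not_le.2 Cardinal.aleph0_lt_aleph_one)
  cnt := by
    intro a
    have h1 : (Set.Iio a.1).Countable := by
      rw [← Cardinal.le_aleph0_iff_set_countable, Cardinal.mk_Iio_ordinal,
        Cardinal.lift_le_aleph0]
      have h2 : a.1 < (ℵ₁ : Cardinal.{u}).ord := by
        rw [Cardinal.ord_aleph]
        exact a.2
      have h3 : (a.1).card < ℵ₁ := Cardinal.lt_ord.1 h2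
      have h4 : (a.1).card < Order.succ ℵ₀ := by
        rw [Cardinal.succ_aleph0]
        exact h3
      exact Order.lt_succ_iff.1 h4
    exact (h1.preimage Subtype.val_injective).mono fun x hx => hx

section

variable {T : Type u} [PartialOrder T]

theorem hwo (hT : IsOrderTree T) (t : T) : IsWellOrder (Set.Iio t) (· < ·) := by
  have := hT.wellOrdered t
  let f : ((· < ·) : Set.Iio t → Set.Iio t → Prop) ↪r ((· < ·) : Set.Iic t → Set.Iic t → Prop) :=
    { toFun := fun x => ⟨x.1, le_of_lt x.2⟩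
      inj' := fun x y h => Subtype.ext (by
        have h' := congrArg Subtype.val h
        exact h')
      map_rel_iff' := Iff.rfl }
  exact f.isWellOrder

/-- The height of a point. -/
noncomputable def lev0 (hT : IsOrderTree T) (t : T) : Ordinal.{u} :=
  @Ordinal.type (Set.Iio t) (· < ·) (hwo hT t)

theorem lev0_eq (hT : IsOrderTree T) {s t : T} (h : s < t) :
    lev0 hT s = (@Ordinal.typein (Set.Iio t) (· < ·) (hwo hT t)) ⟨s, h⟩ := by
  have := hwo hT t
  have := hwo hT s
  rw [← Ordinal.type_subrel]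
  unfold lev0
  apply RelIso.ordinalType_congr
  exact
    { toFun := fun x => ⟨⟨x.1, lt_trans x.2 h⟩, x.2⟩
      invFun := fun x => ⟨x.1.1, x.2⟩
      left_inv := fun x => rfl
      right_inv := fun x => rfl
      map_rel_iff' := Iff.rfl }

theorem lev0_lt (hT : IsAronszajnTree T) (t : T) : lev0 hT.orderTree t < ω₁ := by
  have := hwo hT.orderTree t
  rw [← Cardinal.ord_aleph, Cardinal.lt_ord]
  unfold lev0
  rw [Ordinal.card_type, ← Cardinal.succ_aleph0, Order.lt_succ_iff,
    Cardinal.le_aleph0_iff_set_countable]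
  have hch : IsChain (· ≤ ·) (Set.Iic t) := by
    have hw := hT.orderTree.wellOrdered t
    intro a ha b hb hne
    rcases trichotomous_of ((· < ·) : Set.Iic t → Set.Iic t → Prop) ⟨a, ha⟩ ⟨b, hb⟩ with h | h | h
    · exact Or.inl (le_of_lt h)
    · exact absurd (congrArg Subtype.val h) hne
    · exact Or.inr (le_of_lt h)
  obtain ⟨M, hM, hsub⟩ := hch.exists_maxChain
  exact (hT.countable_branch M hM).mono fun x hx => hsub (le_of_lt hx)

/-- An Aronszajn tree graph as a graph on a tree with levels in the countable ordinals. -/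
noncomputable def toLTree (hT : IsAronszajnTree T) {G : SimpleGraph T} (hG : IsTreeGraph G) :
    LTree Om1.{u} T G where
  lev t := ⟨lev0 hT.orderTree t, lev0_lt hT t⟩
  mono := by
    intro s t h
    have := hwo hT.orderTree t
    change lev0 hT.orderTree s < lev0 hT.orderTree t
    rw [lev0_eq hT.orderTree h]
    exact Ordinal.typein_lt_type _ _
  down := by
    rintro t ⟨a, ha⟩ hle
    have hle' : a ≤ lev0 hT.orderTree t := hle
    have := hwo hT.orderTree t
    rcases hle'.lt_or_eq with h | h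
    · obtain ⟨⟨s, hs⟩, hs'⟩ := Ordinal.typein_surj ((· < ·) : Set.Iio t → Set.Iio t → Prop) h
      refine ⟨s, le_of_lt hs, Subtype.ext ?_⟩
      change lev0 hT.orderTree s = a
      rw [lev0_eq hT.orderTree hs]
      exact hs'
    · exact ⟨t, le_rfl, Subtype.ext h.symm⟩
  cnt := by
    rintro ⟨a, ha⟩
    refine (hT.countable_level a).mono ?_
    intro t ht
    exact ⟨hwo hT.orderTree t, congrArg Subtype.val ht⟩
  comp := by
    intro s s' t h h'
    have hw := hT.orderTree.wellOrdered t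
    rcases trichotomous_of ((· < ·) : Set.Iic t → Set.Iic t → Prop) ⟨s, h⟩ ⟨s', h'⟩ with h | h | h
    · exact Or.inl (le_of_lt h)
    · exact Or.inl (congrArg Subtype.val h).le
    · exact Or.inr (le_of_lt h)
  adj := by
    intro s t h
    rcases hG.comparable s t h with h' | h'
    · exact Or.inl (lt_of_le_of_ne h' (G.ne_of_adj h))
    · exact Or.inr (lt_of_le_of_ne h' (G.ne_of_adj h).symm)
  cof := fun {s t} h => hG.cofinal t s h
  unc := by
    intro h
    rw [Set.countable_univ_iff, ← Cardinal.mk_le_aleph0_iff, hT.card_eq] at h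
    exact absurd h (not_le.2 Cardinal.aleph0_lt_aleph_one)

theorem mk_eq_of_unc (hT : #T = ℵ₁) {F : Set T} (hF : ¬ F.Countable) : #F = ℵ₁ := by
  apply le_antisymm
  · rw [← hT]
    exact Cardinal.mk_set_le F
  · rw [← Cardinal.le_aleph0_iff_set_countable, not_le, ← Order.succ_le_iff,
      Cardinal.succ_aleph0] at hF
    exact hF

theorem equiv_of_unc (hT : #T = ℵ₁) (F : Set T) (hF : ¬ F.Countable) :
    Nonempty (Om1.{u} ≃ F) := by
  rw [← Cardinal.lift_mk_eq', mk_Om1, mk_eq_of_unc hT hF]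
  simp

/-! ### The first case -/

theorem alephMinor {Om : Type v} [LinearOrder Om] [WellFoundedLT Om] [OmegaOne Om]
    {G : SimpleGraph T} (L : LTree Om T G) (hT : #T = ℵ₁) {a : Om}
    (h : ¬ {x | (BB G x ∩ {v | L.lev v < a}).Infinite}.Countable) :
    ∃ (W : Type u) (H : SimpleGraph W), IsAlephGraph H ∧ IsMinor H G := by
  classical
  obtain ⟨g, hg1, hg⟩ := L.exists_wit
  have hX : ∀ c, a ≤ c → ∃ x, (BB G x ∩ {v | L.lev v < a}).Infinite ∧ L.lev x = c := by
    intro c hc
    obtain ⟨x, hx, hxc⟩ := L.exists_ge_of_unc h c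
    obtain ⟨s, hs, hsc⟩ := L.down x c hxc
    refine ⟨s, ?_, hsc⟩
    refine Set.Infinite.mono ?_ hx
    rintro v ⟨hv1, hv2⟩
    refine ⟨BB_mono hs hv1 ?_, hv2⟩
    exact L.lt_of_comp hv1.1.le hs (lt_of_lt_of_le hv2 (hsc ▸ hc))
  have hX' : ∀ c, ∃ x, a ≤ c → (BB G x ∩ {v | L.lev v < a}).Infinite ∧ L.lev x = c := by
    intro c
    by_cases hc : a ≤ c
    · obtain ⟨x, hx⟩ := hX c hc
      exact ⟨x, fun _ => hx⟩
    · obtain ⟨x, _⟩ := L.exists_lev c
      exact ⟨x, fun h' => absurd h' hc⟩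
  choose x hx using hX'
  let Ga : Set Om := {c | ∀ b < c, g b < c} ∩ Set.Ioi a
  have hGa : IsClub Ga := isClub_inter (isClub_closed g) (isClub_Ioi a)
  let A0 : Set T := {v | L.lev v < a}
  let B0 : Set T := x '' Ga
  have hB0 : ∀ y ∈ B0, (BB G y ∩ A0).Infinite ∧ a < L.lev y ∧ L.lev y ∈ Ga := by
    rintro _ ⟨c, hc, rfl⟩
    have := hx c (le_of_lt hc.2)
    exact ⟨this.1, this.2.symm ▸ hc.2, this.2.symm ▸ hc⟩
  let R : A0 → B0 → Prop := fun v y => ∃ w ∈ L.K y.1 (g (L.lev y.1)), G.Adj v.1 w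
  let H : SimpleGraph (A0 ⊕ B0) :=
    { Adj := fun p q => (∃ v y, p = Sum.inl v ∧ q = Sum.inr y ∧ R v y) ∨
        (∃ v y, q = Sum.inl v ∧ p = Sum.inr y ∧ R v y)
      symm := ⟨fun p q h => Or.symm h⟩
      loopless := ⟨by
        rintro p (⟨v, y, h1, h2, _⟩ | ⟨v, y, h1, h2, _⟩)
        · rw [h1] at h2; cases h2
        · rw [h1] at h2; cases h2⟩ }
  have hA0inf : A0.Infinite := by
    obtain ⟨c, hc, _⟩ := hGa.isCofinal a
    exact (hB0 _ ⟨c, hc, rfl⟩).1.mono Set.inter_subset_right
  have hA0c : A0.Countable := L.cnt_lt a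
  have hB0u : ¬ B0.Countable := by
    intro hc
    obtain ⟨b, hb⟩ := exists_gt_of_countable (hc.image L.lev)
    obtain ⟨c, hc1, hc2⟩ := hGa.isCofinal b
    have h1 := hb _ ⟨x c, ⟨c, hc1, rfl⟩, rfl⟩
    rw [(hx c (le_of_lt hc1.2)).2] at h1
    exact absurd h1 (not_lt.2 hc2)
  refine ⟨A0 ⊕ B0, H, ⟨Set.range Sum.inl, Set.range Sum.inr, ?_, ?_, ?_, ?_, ?_, ?_⟩, ?_⟩
  · rw [Set.disjoint_left]
    rintro _ ⟨v, rfl⟩ ⟨y, hy⟩
    cases hy
  · exact Set.range_inl_union_range_inr
  · rintro p q (⟨v, y, rfl, rfl, _⟩ | ⟨v, y, rfl, rfl, _⟩)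
    · exact Or.inl ⟨⟨v, rfl⟩, ⟨y, rfl⟩⟩
    · exact Or.inr ⟨⟨y, rfl⟩, ⟨v, rfl⟩⟩
  · rw [Cardinal.mk_range_eq _ Sum.inl_injective]
    apply le_antisymm
    · exact Cardinal.le_aleph0_iff_set_countable.2 hA0c
    · exact Cardinal.infinite_iff.1 hA0inf.to_subtype
  · rw [Cardinal.mk_range_eq _ Sum.inr_injective]
    exact mk_eq_of_unc hT hB0u
  · rintro _ ⟨y, rfl⟩
    have h1 := (hB0 y.1 y.2).1
    have h2 : (Sum.inl '' (Subtype.val ⁻¹' (BB G y.1) : Set A0) : Set (A0 ⊕ B0)).Infinite := by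
      refine Set.Infinite.image Sum.inl_injective.injOn ?_
      intro hfin
      apply h1
      refine (hfin.image Subtype.val).subset ?_
      rintro v ⟨hv1, hv2⟩
      exact ⟨⟨v, hv2⟩, hv1, rfl⟩
    refine h2.mono ?_
    rintro _ ⟨v, hv, rfl⟩
    obtain ⟨w, hw1, hw2, hw3⟩ := hg y.1 v.1 hv
    exact Or.inr ⟨v, y, rfl, rfl, w, ⟨hw1, hw2⟩, hw3⟩
  · -- the minor
    refine ⟨fun p => Sum.elim (fun v => {v.1}) (fun y => L.K y.1 (g (L.lev y.1))) p, ?_, ?_, ?_⟩
    · rintro (v | y)
      · exact connected_singleton G v.1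
      · exact L.K_conn (hg1 _)
    · have key : ∀ (v : A0) (y : B0), Disjoint ({v.1} : Set T) (L.K y.1 (g (L.lev y.1))) := by
        intro v y
        rw [Set.disjoint_singleton_left]
        intro hv
        have h1 : L.lev y.1 ≤ L.lev v.1 := L.mono' hv.1
        have h2 : L.lev v.1 < a := v.2
        exact absurd ((hB0 y.1 y.2).2.1.trans_le h1) (not_lt.2 h2.le)
      rintro (v | y) (v' | y') hne
      · change Disjoint ({v.1} : Set T) {v'.1}
        rw [Set.disjoint_singleton]
        intro h'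
        exact hne (congrArg Sum.inl (Subtype.ext h'))
      · exact key v y'
      · exact (key v' y).symm
      · change Disjoint (L.K y.1 (g (L.lev y.1))) (L.K y'.1 (g (L.lev y'.1)))
        rw [Set.disjoint_left]
        intro t ht1 ht2
        apply hne
        have : y.1 = y'.1 := L.K_unique ht1 ht2
          (fun h' => ((hB0 y'.1 y'.2).2.2.1 _ (L.mono h')).le)
          (fun h' => ((hB0 y.1 y.2).2.2.1 _ (L.mono h')).le)
        exact congrArg Sum.inr (Subtype.ext this)
    · rintro p q (⟨v, y, rfl, rfl, w, hw, hadj⟩ | ⟨v, y, rfl, rfl, w, hw, hadj⟩)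
      · exact ⟨v.1, rfl, w, hw, hadj⟩
      · exact ⟨w, hw, v.1, rfl, hadj.symm⟩

/-! ### The second case -/

theorem pre_eq {Om : Type v} (f : ℕ → Om) (n : ℕ) : pre f n = (seg f n).reverse := by
  induction n with
  | zero => rfl
  | succ n ih =>
    rw [seg_succ, List.reverse_append]
    simp [pre, ih]

theorem Sq.lt_fin_iff {X : Type v} {s : Sq X} {l : List X} (h : s < Sq.fin l) :
    ∃ m, s = Sq.fin m ∧ m <+: l ∧ m.length < l.length := by
  rcases s with m | f
  · have h1 : m <+: l := h.1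
    refine ⟨m, rfl, h1, ?_⟩
    by_contra hcon
    have h2 : m = l := h1.eq_of_length_le (not_lt.1 hcon)
    subst h2
    exact h.2 h.1
  · exact absurd h.1 id

theorem Sq.lt_inf_iff {X : Type v} {s : Sq X} {f : ℕ → X} (h : s < Sq.inf f) :
    ∃ n, s = Sq.fin (seg f n) := by
  rcases s with m | g
  · obtain ⟨n, rfl⟩ := h.1
    exact ⟨n, rfl⟩
  · have h1 : g = f := h.1
    subst h1
    exact absurd rfl h.2

theorem stationaryMinor {G : SimpleGraph T} {L : LTree Om1.{u} T G} (D : Pieces L)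
    (hT : #T = ℵ₁) : HasStationaryMinor G := by
  classical
  obtain ⟨V, S1, f, Z, hV, hVd, hVadj, hstat, hlim, hf, hZ, hZd, hVZ, hadj⟩ :=
    D.main (equiv_of_unc hT)
  have hf_inj : ∀ x ∈ S1, ∀ y ∈ S1, f x = f y → x = y := by
    have key : ∀ x ∈ S1, ∀ y ∈ S1, f x = f y → ¬ x < y := by
      intro x hx y hy he hlt
      obtain ⟨n, hn⟩ := (hf y hy).2 x hlt
      rw [← he] at hn
      exact absurd ((hf x hx).1 n) (not_lt.2 hn)
    intro x hx y hy he
    exact le_antisymm (not_lt.1 (key y hy x hx he.symm)) (not_lt.1 (key x hx y hy he))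
  -- the graph on the tree of sequences
  let P : List Om1.{u} → (ℕ → Om1.{u}) → Prop := fun l g =>
    (∃ n, l = seg g n) ∧ ∀ x ∈ S1, g = f x → ∃ a ∈ V l.reverse, ∃ b ∈ Z x, G.Adj a b
  let Q : List Om1.{u} → List Om1.{u} → Prop := fun l m => ∃ a, m = l ++ [a]
  let Gom : SimpleGraph (Sq Om1.{u}) :=
    { Adj := fun s t => match s, t with
        | .fin l, .fin m => Q l m ∨ Q m l
        | .fin l, .inf g => P l g
        | .inf g, .fin l => P l g
        | .inf _, .inf _ => False
      symm := ⟨by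
        rintro (l | g) (m | h) hh
        · exact Or.symm hh
        · exact hh
        · exact hh
        · exact hh⟩
      loopless := ⟨by
        rintro (l | g) hh
        · rcases hh with ⟨a, ha⟩ | ⟨a, ha⟩
          · have := congrArg List.length ha
            simp at this
          · have := congrArg List.length ha
            simp at this
        · exact hh⟩ }
  have Q_le : ∀ l m, Q l m → (Sq.fin l : Sq Om1.{u}) ≤ Sq.fin m := by
    rintro l _ ⟨a, rfl⟩
    exact List.prefix_append _ _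
  have P_le : ∀ l g, P l g → (Sq.fin l : Sq Om1.{u}) ≤ Sq.inf g := fun l g h => h.1
  have hGom : IsTreeGraph Gom := by
    refine ⟨?_, ?_⟩
    · rintro (l | g) (m | h) hh
      · rcases hh with hh | hh
        · exact Or.inl (Q_le _ _ hh)
        · exact Or.inr (Q_le _ _ hh)
      · exact Or.inl (P_le _ _ hh)
      · exact Or.inr (P_le _ _ hh)
      · exact absurd hh id
    · rintro (l | g) s hs
      · obtain ⟨m, rfl, hpre, hlen⟩ := Sq.lt_fin_iff hs
        rcases List.eq_nil_or_concat l with rfl | ⟨l', a, rfl⟩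
        · simp at hlen
        · rw [List.concat_eq_append] at *
          have h1 : m <+: l' := by
            refine List.prefix_of_prefix_length_le hpre (List.prefix_append _ _) ?_
            simp at hlen
            omega
          refine ⟨Sq.fin l', h1, lt_of_le_of_ne (List.prefix_append _ _) ?_, Or.inl ⟨a, rfl⟩⟩
          intro h2
          have h3 : l' = l' ++ [a] := by
            injection h2
          have := congrArg List.length h3
          simp at this
      · obtain ⟨N, rfl⟩ := Sq.lt_inf_iff hs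
        have hex : ∃ n ≥ N, P (seg g n) g := by
          by_cases hx : ∃ x ∈ S1, g = f x
          · obtain ⟨x, hx, rfl⟩ := hx
            obtain ⟨n, hn, hn'⟩ := hadj x hx N
            refine ⟨n, hn, ⟨n, rfl⟩, fun y hy he => ?_⟩
            have : y = x := hf_inj y hy x hx he.symm
            subst this
            rw [← pre_eq]
            exact hn'
          · exact ⟨N, le_rfl, ⟨N, rfl⟩, fun y hy he => absurd ⟨y, hy, he⟩ hx⟩
        obtain ⟨n, hn, hP⟩ := hex
        refine ⟨Sq.fin (seg g n), seg_prefix g hn, lt_of_le_of_ne ⟨n, rfl⟩ ?_, hP⟩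
        intro h2
        cases h2
  refine ⟨S1, Gom, f, hstat, hlim, hGom, hf, ?_⟩
  -- the branch sets
  let B : Sq Om1.{u} → Set T := fun s => match s with
    | .fin l => V l.reverse
    | .inf g => {y | ∃ x ∈ S1, g = f x ∧ y ∈ Z x}
  have hBinf : ∀ x ∈ S1, B (Sq.inf (f x)) = Z x := by
    intro x hx
    ext y
    constructor
    · rintro ⟨x', hx', he, hy⟩
      have := hf_inj x hx x' hx' he
      subst this
      exact hy
    · intro hy
      exact ⟨x, hx, rfl, hy⟩
  have edge : ∀ l m, Q l m → ∃ a ∈ B (Sq.fin l), ∃ b ∈ B (Sq.fin m), G.Adj a b := by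
    rintro l _ ⟨a, rfl⟩
    have h1 := hVadj l.reverse a
    obtain ⟨p, hp, q, hq, hpq⟩ := h1
    refine ⟨p, hp, q, ?_, hpq⟩
    change q ∈ V (l ++ [a]).reverse
    rw [List.reverse_append]
    exact hq
  refine ⟨fun s => B s.1, ?_, ?_, ?_⟩
  · rintro ⟨s, ⟨l, rfl⟩ | ⟨x, hx, rfl⟩⟩
    · exact hV l.reverse
    · change (G.induce (B (Sq.inf (f x)))).Connected
      rw [hBinf x hx]
      exact hZ x hx
  · rintro ⟨s, ⟨l, rfl⟩ | ⟨x, hx, rfl⟩⟩ ⟨t, ⟨m, rfl⟩ | ⟨y, hy, rfl⟩⟩ hne
    · refine hVd _ _ ?_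
      intro h
      apply hne
      have := List.reverse_injective h
      subst this
      rfl
    · change Disjoint (V l.reverse) (B (Sq.inf (f y)))
      rw [hBinf y hy]
      exact hVZ y hy _
    · change Disjoint (B (Sq.inf (f x))) (V m.reverse)
      rw [hBinf x hx]
      exact (hVZ x hx _).symm
    · change Disjoint (B (Sq.inf (f x))) (B (Sq.inf (f y)))
      rw [hBinf x hx, hBinf y hy]
      refine hZd x hx y hy ?_
      rintro rfl
      exact hne rfl
  · rintro ⟨s, ⟨l, rfl⟩ | ⟨x, hx, rfl⟩⟩ ⟨t, ⟨m, rfl⟩ | ⟨y, hy, rfl⟩⟩ hh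
    · rcases hh with hh | hh
      · exact edge l m hh
      · obtain ⟨a, ha, b, hb, hab⟩ := edge m l hh
        exact ⟨b, hb, a, ha, hab.symm⟩
    · obtain ⟨_, h2⟩ : P l (f y) := hh
      change ∃ a ∈ V l.reverse, ∃ b ∈ B (Sq.inf (f y)), G.Adj a b
      rw [hBinf y hy]
      exact h2 y hy rfl
    · obtain ⟨_, h2⟩ : P m (f x) := hh
      change ∃ a ∈ B (Sq.inf (f x)), ∃ b ∈ V m.reverse, G.Adj a b
      rw [hBinf x hx]
      obtain ⟨a, ha, b, hb, hab⟩ := h2 x hx rfl
      exact ⟨b, hb, a, ha, hab.symm⟩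
    · exact absurd hh id

/-- Every Aronszajn tree graph has an `(ℵ₀, ℵ₁)`-graph or a graph `G_{ω₁}(S)`, `S` stationary,
as a minor. -/
theorem main (hT : IsAronszajnTree T) {G : SimpleGraph T} (hG : IsTreeGraph G) :
    (∃ (W : Type u) (H : SimpleGraph W), IsAlephGraph H ∧ IsMinor H G) ∨
      HasStationaryMinor G := by
  let L := toLTree hT hG
  by_cases h : ∀ a, {x | (BB G x ∩ {v | L.lev v < a}).Infinite}.Countable
  · right
    obtain ⟨D⟩ := pieces_of_countable L h
    exact stationaryMinor D hT.card_eq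
  · left
    push Not at h
    obtain ⟨a, ha⟩ := h
    exact alephMinor L hT.card_eq ha

end

end Pool.Agent.W905.ATG
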